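import Pool.Agent.N278.PC.Ker

/-! Polynomial approximation of a curve for which both the arc length `S` and the angle `Φ` of the
tangent are Lipschitz functions of the angular parameter. -/

open Finset Real

namespace Pool.Agent.N278.PC

/-- covariance bound -/
lemma cov_bound (N : ℕ) (hN : 1 ≤ N) (θ : ℝ) (hθ : θ ∈ Set.Icc 0 π) (S Φ : ℝ → ℝ) (κ : ℝ)
    (hκ : 0 ≤ κ)
    (hSL : ∀ t ∈ Set.Icc 0 π, ∀ u ∈ Set.Icc 0 π, |S t - S u| ≤ κ * |t - u|)
    (hΦL : ∀ t ∈ Set.Icc 0 π, ∀ u ∈ Set.Icc 0 π, |Φ t - Φ u| ≤ κ * |t - u|)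
    (hS : MonotoneOn S (Set.Icc 0 π)) (hΦ : MonotoneOn Φ (Set.Icc 0 π))
    (t : ℝ) (ht : t ∈ Set.Icc 0 π) (hσ : S t = ∑ k ∈ range N, wt N k θ * S (nd N k)) :
    ∑ k ∈ range N, wt N k θ * (|S t - S (nd N k)| * |Φ t - Φ (nd N k)|) ≤
      2 * κ ^ 2 * (π ^ 4 / 4 / (N + 1) ^ 2) := by
  set M2 := π ^ 4 / 4 / ((N : ℝ) + 1) ^ 2 with hM2
  have hmom := wt_moment N hN θ hθ
  have hw1 := wt_sum N hN θ
  -- first absolute moment squared
  have hfirst : (∑ k ∈ range N, wt N k θ * |θ - nd N k|) ^ 2 ≤ M2 := by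
    have hcs := Finset.sum_mul_sq_le_sq_mul_sq (range N) (fun k => √(wt N k θ))
      (fun k => √(wt N k θ) * |θ - nd N k|)
    have e1 : ∀ k ∈ range N, √(wt N k θ) * (√(wt N k θ) * |θ - nd N k|) = wt N k θ * |θ - nd N k| := by
      intro k _
      rw [← mul_assoc, Real.mul_self_sqrt (wt_nonneg N k θ)]
    have e2 : ∀ k ∈ range N, √(wt N k θ) ^ 2 = wt N k θ := by
      intro k _
      exact Real.sq_sqrt (wt_nonneg N k θ)
    have e3 : ∀ k ∈ range N, (√(wt N k θ) * |θ - nd N k|) ^ 2 = wt N k θ * (θ - nd N k) ^ 2 := by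
      intro k _
      rw [mul_pow, Real.sq_sqrt (wt_nonneg N k θ), sq_abs]
    rw [sum_congr rfl e1, sum_congr rfl e2, sum_congr rfl e3, hw1, one_mul] at hcs
    exact hcs.trans hmom
  have habs : ∀ k ∈ range N, wt N k θ * (|S t - S (nd N k)| * |Φ t - Φ (nd N k)|) =
      wt N k θ * ((S (nd N k) - S t) * (Φ (nd N k) - Φ t)) := by
    intro k hk
    have hu := nd_mem N k (mem_range.1 hk)
    congr 1
    rw [← abs_mul, abs_of_nonneg]
    · ring
    · rcases le_total t (nd N k) with h | h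
      · have h1 := hS ht hu h
        have h2 := hΦ ht hu h
        nlinarith
      · have h1 := hS hu ht h
        have h2 := hΦ hu ht h
        nlinarith
  rw [sum_congr rfl habs]
  have hz : ∑ k ∈ range N, wt N k θ * (S (nd N k) - S t) = 0 := by
    simp only [mul_sub, sum_sub_distrib, ← sum_mul, hw1, ← hσ]
    ring
  have hrew : ∑ k ∈ range N, wt N k θ * ((S (nd N k) - S t) * (Φ (nd N k) - Φ t)) =
      ∑ k ∈ range N, wt N k θ * ((S (nd N k) - S t) * (Φ (nd N k) - Φ θ)) := by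
    have : ∀ k ∈ range N, wt N k θ * ((S (nd N k) - S t) * (Φ (nd N k) - Φ t)) =
        wt N k θ * ((S (nd N k) - S t) * (Φ (nd N k) - Φ θ)) +
          (Φ θ - Φ t) * (wt N k θ * (S (nd N k) - S t)) := by
      intro k _
      ring
    rw [sum_congr rfl this, sum_add_distrib, ← mul_sum, hz]
    ring
  rw [hrew]
  set A := ∑ k ∈ range N, wt N k θ * |θ - nd N k| with hA
  have hA0 : 0 ≤ A := sum_nonneg fun k _ => mul_nonneg (wt_nonneg N k θ) (abs_nonneg _)
  have hSθ : |S θ - S t| ≤ κ * A := by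
    have : S θ - S t = ∑ k ∈ range N, wt N k θ * (S θ - S (nd N k)) := by
      simp only [mul_sub, sum_sub_distrib, ← sum_mul, hw1, ← hσ]
      ring
    rw [this, hA, mul_sum]
    refine (abs_sum_le_sum_abs _ _).trans (sum_le_sum fun k hk => ?_)
    rw [abs_mul, abs_of_nonneg (wt_nonneg N k θ)]
    have := hSL θ hθ _ (nd_mem N k (mem_range.1 hk))
    calc _ ≤ wt N k θ * (κ * |θ - nd N k|) := mul_le_mul_of_nonneg_left this (wt_nonneg N k θ)
      _ = _ := by ring
  have hterm : ∀ k ∈ range N, wt N k θ * ((S (nd N k) - S t) * (Φ (nd N k) - Φ θ)) ≤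
      κ ^ 2 * (wt N k θ * (θ - nd N k) ^ 2) + κ * A * (κ * (wt N k θ * |θ - nd N k|)) := by
    intro k hk
    have hu := nd_mem N k (mem_range.1 hk)
    have h1 := hSL θ hθ _ hu
    have h2 := hΦL θ hθ _ hu
    have h3 : (S (nd N k) - S t) * (Φ (nd N k) - Φ θ) ≤ (κ * |θ - nd N k| + κ * A) * (κ * |θ - nd N k|) := by
      refine (le_abs_self _).trans ?_
      rw [abs_mul]
      have h4 : |S (nd N k) - S t| ≤ κ * |θ - nd N k| + κ * A := by
        have : S (nd N k) - S t = -(S θ - S (nd N k)) + (S θ - S t) := by ring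
        rw [this]
        refine (abs_add_le _ _).trans ?_
        rw [abs_neg]
        exact add_le_add h1 hSθ
      have h5 : |Φ (nd N k) - Φ θ| ≤ κ * |θ - nd N k| := by
        rw [abs_sub_comm]; exact h2
      exact mul_le_mul h4 h5 (abs_nonneg _) (by positivity)
    calc _ ≤ wt N k θ * ((κ * |θ - nd N k| + κ * A) * (κ * |θ - nd N k|)) :=
          mul_le_mul_of_nonneg_left h3 (wt_nonneg N k θ)
      _ = _ := by
        rw [← sq_abs (θ - nd N k)]
        ring
  refine (sum_le_sum hterm).trans ?_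
  rw [sum_add_distrib, ← mul_sum, ← mul_sum, ← mul_sum, ← hA]
  have h5 : κ * A * (κ * A) = κ ^ 2 * A ^ 2 := by ring
  rw [h5]
  have hk2 : 0 ≤ κ ^ 2 := sq_nonneg κ
  nlinarith [mul_le_mul_of_nonneg_left hmom hk2, mul_le_mul_of_nonneg_left hfirst hk2]

open Polynomial in
/-- the approximation theorem for curves with a good parametrisation -/
theorem approx (N : ℕ) (hN : 1 ≤ N) (S Φ : ℝ → ℝ) (X E : ℝ → ℂ) (κ δ : ℝ) (hκ : 0 ≤ κ) (hδ : 0 ≤ δ)
    (hS : MonotoneOn S (Set.Icc 0 π)) (hΦ : MonotoneOn Φ (Set.Icc 0 π))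
    (hSL : ∀ t ∈ Set.Icc 0 π, ∀ u ∈ Set.Icc 0 π, |S t - S u| ≤ κ * |t - u|)
    (hΦL : ∀ t ∈ Set.Icc 0 π, ∀ u ∈ Set.Icc 0 π, |Φ t - Φ u| ≤ κ * |t - u|)
    (hX1 : ∀ t ∈ Set.Icc 0 π, ∀ u ∈ Set.Icc 0 π, ‖X t - X u‖ ≤ |S t - S u|)
    (hX2 : ∀ t ∈ Set.Icc 0 π, ∀ u ∈ Set.Icc 0 π,
      ‖X t - X u - E u * ((S t - S u : ℝ) : ℂ)‖ ≤ |S t - S u| * (|Φ t - Φ u| + δ))
    (h0 : ∀ u ∈ Set.Icc 0 π, u ≤ 1 → S u = S 0) (h1 : ∀ u ∈ Set.Icc 0 π, π - 1 ≤ u → S u = S π) :
    ∃ P Q : ℝ[X], P.natDegree ≤ 2 * (N - 1) ∧ Q.natDegree ≤ 2 * (N - 1) ∧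
      (∀ τ ∈ Set.Icc (0 : ℝ) 1, ∃ t ∈ Set.Icc 0 π,
        ‖((P.eval τ : ℝ) : ℂ) + ((Q.eval τ : ℝ) : ℂ) * Complex.I - X t‖ ≤
          (2 * κ ^ 2 + (S π - S 0)) * (π ^ 4 / 4 / (N + 1) ^ 2) + δ * (S π - S 0)) ∧
      (∀ t ∈ Set.Icc 0 π, ∃ τ ∈ Set.Icc (0 : ℝ) 1,
        ‖((P.eval τ : ℝ) : ℂ) + ((Q.eval τ : ℝ) : ℂ) * Complex.I - X t‖ ≤
          (2 * κ ^ 2 + (S π - S 0)) * (π ^ 4 / 4 / (N + 1) ^ 2) + δ * (S π - S 0)) := by
  set M2 := π ^ 4 / 4 / ((N : ℝ) + 1) ^ 2 with hM2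
  have hM2' : 0 ≤ M2 := by positivity
  have hπ := pi_pos
  have m0 : (0 : ℝ) ∈ Set.Icc 0 π := ⟨le_refl _, hπ.le⟩
  have mπ : π ∈ Set.Icc 0 π := ⟨hπ.le, le_refl _⟩
  have hR : 0 ≤ S π - S 0 := sub_nonneg.2 (hS m0 mπ hπ.le)
  choose p hp1 hp2 using wt_poly N
  -- the smoothed arc length
  set sg : ℝ → ℝ := fun θ => ∑ k ∈ range N, wt N k θ * S (nd N k) with hsg
  set Pc : ℝ → ℂ := fun θ => ∑ k ∈ range N, ((wt N k θ : ℝ) : ℂ) *
    (X (nd N k) + E (nd N k) * ((sg θ - S (nd N k) : ℝ) : ℂ)) with hPc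
  -- error estimate
  have herr : ∀ θ ∈ Set.Icc 0 π, ∀ t ∈ Set.Icc 0 π, S t = sg θ →
      ‖Pc θ - X t‖ ≤ 2 * κ ^ 2 * M2 + δ * (S π - S 0) := by
    intro θ hθ t ht hst
    have hw1 := wt_sum N hN θ
    have h2 : Pc θ - X t = ∑ k ∈ range N, ((wt N k θ : ℝ) : ℂ) *
        (-(X t - X (nd N k) - E (nd N k) * ((S t - S (nd N k) : ℝ) : ℂ))) := by
      have : X t = ∑ k ∈ range N, ((wt N k θ : ℝ) : ℂ) * X t := by
        rw [← sum_mul, ← Complex.ofReal_sum, hw1]
        simp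
      rw [this, hPc, ← sum_sub_distrib]
      refine sum_congr rfl fun k _ => ?_
      rw [← hst, ← this]
      ring
    rw [h2]
    refine (norm_sum_le _ _).trans ?_
    have h3 : ∀ k ∈ range N, ‖((wt N k θ : ℝ) : ℂ) *
        (-(X t - X (nd N k) - E (nd N k) * ((S t - S (nd N k) : ℝ) : ℂ)))‖ ≤
        wt N k θ * (|S t - S (nd N k)| * |Φ t - Φ (nd N k)|) + wt N k θ * (δ * (S π - S 0)) := by
      intro k hk
      have hu := nd_mem N k (mem_range.1 hk)
      rw [norm_mul, norm_neg, Complex.norm_real, Real.norm_eq_abs, abs_of_nonneg (wt_nonneg N k θ)]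
      have h4 := hX2 t ht _ hu
      have h5 : |S t - S (nd N k)| ≤ S π - S 0 := by
        rw [abs_le]
        have a1 := hS m0 ht ht.1
        have a2 := hS ht mπ ht.2
        have a3 := hS m0 hu hu.1
        have a4 := hS hu mπ hu.2
        constructor <;> linarith
      calc _ ≤ wt N k θ * (|S t - S (nd N k)| * (|Φ t - Φ (nd N k)| + δ)) :=
            mul_le_mul_of_nonneg_left h4 (wt_nonneg N k θ)
        _ = wt N k θ * (|S t - S (nd N k)| * |Φ t - Φ (nd N k)|) +
            wt N k θ * (δ * |S t - S (nd N k)|) := by ring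
        _ ≤ _ := by
          have := mul_le_mul_of_nonneg_left (mul_le_mul_of_nonneg_left h5 hδ) (wt_nonneg N k θ)
          linarith
    refine (sum_le_sum h3).trans ?_
    rw [sum_add_distrib, ← sum_mul, hw1, one_mul]
    have := cov_bound N hN θ hθ S Φ κ hκ hSL hΦL hS hΦ t ht hst
    linarith
  -- continuity
  have hwc : ∀ k, Continuous (wt N k) := by
    intro k
    have : wt N k = fun θ => (p k).eval (cos θ) := by
      funext θ; exact hp2 k θ
    rw [this]
    exact (p k).continuous.comp continuous_cos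
  have hsgc : Continuous sg := by
    rw [hsg]
    exact continuous_finsetSum _ fun k _ => (hwc k).mul continuous_const
  have hSc : ContinuousOn S (Set.Icc 0 π) := by
    have : LipschitzOnWith (Real.toNNReal κ) S (Set.Icc 0 π) := by
      apply LipschitzOnWith.of_dist_le_mul
      intro x hx y hy
      rw [Real.dist_eq, Real.dist_eq, Real.coe_toNNReal κ hκ]
      exact hSL x hx y hy
    exact this.continuousOn
  have hrange : ∀ θ, sg θ ∈ Set.Icc (S 0) (S π) := by
    intro θ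
    have hw1 := wt_sum N hN θ
    constructor
    · have : S 0 = ∑ k ∈ range N, wt N k θ * S 0 := by rw [← sum_mul, hw1, one_mul]
      rw [this]
      refine sum_le_sum fun k hk => ?_
      have hu := nd_mem N k (mem_range.1 hk)
      exact mul_le_mul_of_nonneg_left (hS m0 hu hu.1) (wt_nonneg N k θ)
    · have : S π = ∑ k ∈ range N, wt N k θ * S π := by rw [← sum_mul, hw1, one_mul]
      rw [this]
      refine sum_le_sum fun k hk => ?_
      have hu := nd_mem N k (mem_range.1 hk)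
      exact mul_le_mul_of_nonneg_left (hS hu mπ hu.2) (wt_nonneg N k θ)
  have hivt : ∀ θ, ∃ t ∈ Set.Icc 0 π, S t = sg θ := fun θ =>
    intermediate_value_Icc hπ.le hSc (hrange θ)
  -- ends
  have hend0 : sg 0 ≤ S 0 + (S π - S 0) * M2 := by
    have hmom := wt_moment N hN 0 m0
    have : ∀ k ∈ range N, wt N k 0 * S (nd N k) ≤
        wt N k 0 * S 0 + (S π - S 0) * (wt N k 0 * (0 - nd N k) ^ 2) := by
      intro k hk
      have hu := nd_mem N k (mem_range.1 hk)
      have hw := wt_nonneg N k 0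
      by_cases hk1 : nd N k ≤ 1
      · rw [h0 _ hu hk1]
        have : 0 ≤ (S π - S 0) * (wt N k 0 * (0 - nd N k) ^ 2) := by positivity
        linarith
      · push Not at hk1
        have h2 := hS hu mπ hu.2
        have h3 : 1 ≤ (0 - nd N k) ^ 2 := by nlinarith
        have h4 : wt N k 0 * (S (nd N k) - S 0) ≤ wt N k 0 * ((S π - S 0) * (0 - nd N k) ^ 2) := by
          apply mul_le_mul_of_nonneg_left _ hw
          nlinarith
        linarith
    refine (sum_le_sum this).trans ?_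
    rw [sum_add_distrib, ← sum_mul, wt_sum N hN, one_mul, ← mul_sum]
    have := mul_le_mul_of_nonneg_left hmom hR
    linarith
  have hendπ : S π - (S π - S 0) * M2 ≤ sg π := by
    have hmom := wt_moment N hN π mπ
    have : ∀ k ∈ range N, wt N k π * S π - (S π - S 0) * (wt N k π * (π - nd N k) ^ 2) ≤
        wt N k π * S (nd N k) := by
      intro k hk
      have hu := nd_mem N k (mem_range.1 hk)
      have hw := wt_nonneg N k π
      by_cases hk1 : π - 1 ≤ nd N k
      · rw [h1 _ hu hk1]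
        have : 0 ≤ (S π - S 0) * (wt N k π * (π - nd N k) ^ 2) := by positivity
        linarith
      · push Not at hk1
        have h2 := hS m0 hu hu.1
        have h3 : 1 ≤ (π - nd N k) ^ 2 := by nlinarith
        have h4 : wt N k π * (S π - S (nd N k)) ≤ wt N k π * ((S π - S 0) * (π - nd N k) ^ 2) := by
          apply mul_le_mul_of_nonneg_left _ hw
          nlinarith
        linarith
    have h2 := sum_le_sum this
    rw [sum_sub_distrib, ← sum_mul, wt_sum N hN, one_mul, ← mul_sum] at h2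
    have := mul_le_mul_of_nonneg_left hmom hR
    linarith
  have hcover : ∀ t ∈ Set.Icc 0 π, ∃ θ ∈ Set.Icc 0 π,
      ‖Pc θ - X t‖ ≤ (2 * κ ^ 2 + (S π - S 0)) * M2 + δ * (S π - S 0) := by
    intro t ht
    rcases lt_or_ge (S t) (sg 0) with hlt | hge
    · obtain ⟨t', ht', hst'⟩ := hivt 0
      refine ⟨0, m0, ?_⟩
      have e1 := herr 0 m0 t' ht' hst'
      have e2 := hX1 t' ht' t ht
      have e3 : |S t' - S t| ≤ (S π - S 0) * M2 := by
        have a3 := hS m0 ht ht.1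
        rw [hst', abs_le]
        constructor <;> linarith
      calc ‖Pc 0 - X t‖ = ‖(Pc 0 - X t') + (X t' - X t)‖ := by ring_nf
        _ ≤ ‖Pc 0 - X t'‖ + ‖X t' - X t‖ := norm_add_le _ _
        _ ≤ _ := by linarith
    · rcases lt_or_ge (sg π) (S t) with hlt2 | hge2
      · obtain ⟨t', ht', hst'⟩ := hivt π
        refine ⟨π, mπ, ?_⟩
        have e1 := herr π mπ t' ht' hst'
        have e2 := hX1 t' ht' t ht
        have e3 : |S t' - S t| ≤ (S π - S 0) * M2 := by
          have a3 := hS ht mπ ht.2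
          rw [hst', abs_le]
          constructor <;> linarith
        calc ‖Pc π - X t‖ = ‖(Pc π - X t') + (X t' - X t)‖ := by ring_nf
          _ ≤ ‖Pc π - X t'‖ + ‖X t' - X t‖ := norm_add_le _ _
          _ ≤ _ := by linarith
      · obtain ⟨θ, hθ, hst⟩ := intermediate_value_Icc hπ.le hsgc.continuousOn ⟨hge, hge2⟩
        refine ⟨θ, hθ, ?_⟩
        have := herr θ hθ t ht hst.symm
        have h3 : 0 ≤ (S π - S 0) * M2 := by positivity
        linarith
  -- polynomials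
  set sp : ℝ[X] := ∑ k ∈ range N, p k * C (S (nd N k)) with hsp
  have hspd : sp.natDegree ≤ N - 1 := by
    refine natDegree_sum_le_of_forall_le _ _ fun k _ => ?_
    exact (natDegree_mul_C_le _ _).trans (hp1 k)
  have hspe : ∀ θ, sg θ = sp.eval (cos θ) := by
    intro θ
    rw [hsp, eval_finsetSum, hsg]
    refine sum_congr rfl fun k _ => ?_
    rw [eval_mul, eval_C, hp2]
  set P0 : ℝ[X] := ∑ k ∈ range N, p k * (C (X (nd N k)).re + C (E (nd N k)).re * (sp - C (S (nd N k))))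
    with hP0
  set Q0 : ℝ[X] := ∑ k ∈ range N, p k * (C (X (nd N k)).im + C (E (nd N k)).im * (sp - C (S (nd N k))))
    with hQ0
  have hdeg : ∀ (a b c : ℝ) (k : ℕ), (p k * (C a + C b * (sp - C c))).natDegree ≤ 2 * (N - 1) := by
    intro a b c k
    refine natDegree_mul_le.trans ?_
    have h2 : (C a + C b * (sp - C c)).natDegree ≤ N - 1 := by
      refine (natDegree_add_le _ _).trans ?_
      rw [natDegree_C, max_le_iff]
      refine ⟨by omega, ?_⟩
      refine (natDegree_C_mul_le _ _).trans ?_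
      refine (natDegree_sub_le _ _).trans ?_
      rw [natDegree_C, max_le_iff]
      exact ⟨hspd, by omega⟩
    have := hp1 k
    omega
  have hPQ : ∀ θ, Pc θ = ((P0.eval (cos θ) : ℝ) : ℂ) + ((Q0.eval (cos θ) : ℝ) : ℂ) * Complex.I := by
    intro θ
    rw [hP0, hQ0, eval_finsetSum, eval_finsetSum, hPc]
    push_cast
    rw [sum_mul, ← sum_add_distrib]
    refine sum_congr rfl fun k _ => ?_
    simp only [eval_mul, eval_add, eval_sub, eval_C, ← hspe, ← hp2]
    conv_lhs => rw [← Complex.re_add_im (X (nd N k)), ← Complex.re_add_im (E (nd N k))]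
    push_cast
    ring
  have hlin : ∀ q : ℝ[X], (q.comp (C 2 * Polynomial.X - 1)).natDegree ≤ q.natDegree := by
    intro q
    refine natDegree_comp_le.trans ?_
    have : (C (2 : ℝ) * Polynomial.X - 1).natDegree ≤ 1 := by
      compute_degree
    calc _ ≤ q.natDegree * 1 := Nat.mul_le_mul_left _ this
      _ = _ := by ring
  refine ⟨P0.comp (C 2 * Polynomial.X - 1), Q0.comp (C 2 * Polynomial.X - 1), ?_, ?_, ?_, ?_⟩
  · exact (hlin _).trans (natDegree_sum_le_of_forall_le _ _ fun k _ => hdeg _ _ _ k)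
  · exact (hlin _).trans (natDegree_sum_le_of_forall_le _ _ fun k _ => hdeg _ _ _ k)
  · intro τ hτ
    have hθ : arccos (2 * τ - 1) ∈ Set.Icc 0 π := ⟨arccos_nonneg _, arccos_le_pi _⟩
    obtain ⟨t, ht, hst⟩ := hivt (arccos (2 * τ - 1))
    refine ⟨t, ht, ?_⟩
    have h2 := herr _ hθ t ht hst
    rw [hPQ, cos_arccos (by linarith [hτ.1]) (by linarith [hτ.2])] at h2
    have h3 : 0 ≤ (S π - S 0) * M2 := by positivity
    have e : ∀ q : ℝ[X], (q.comp (C 2 * Polynomial.X - 1)).eval τ = q.eval (2 * τ - 1) := by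
      intro q
      rw [eval_comp]
      simp
    rw [e, e]
    linarith
  · intro t ht
    obtain ⟨θ, hθ, hb⟩ := hcover t ht
    refine ⟨(1 + cos θ) / 2, ⟨?_, ?_⟩, ?_⟩
    · linarith [neg_one_le_cos θ]
    · linarith [cos_le_one θ]
    · have e : ∀ q : ℝ[X], (q.comp (C 2 * Polynomial.X - 1)).eval ((1 + cos θ) / 2) = q.eval (cos θ) := by
        intro q
        rw [eval_comp]
        simp only [eval_sub, eval_mul, eval_C, eval_X, eval_one]
        congr 1
        ring
      rw [e, e, ← hPQ]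
      exact hb

end Pool.Agent.N278.PC
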