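import Pool.Agent.N278.PC.App

/-! Approximation of polygonal chains whose sides turn by equal small angles. -/

open Finset Real

namespace Pool.Agent.N278.PC

/-- clamp to `[0,1]` -/
noncomputable def cl (y : ℝ) : ℝ := max 0 (min 1 y)

lemma cl_mono : Monotone cl := fun _ _ h => max_le_max le_rfl (min_le_min le_rfl h)

lemma cl_cont : Continuous cl := continuous_const.max (continuous_const.min continuous_id)

lemma cl_of_nonpos {y : ℝ} (h : y ≤ 0) : cl y = 0 := by
  rw [cl, max_eq_left]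
  exact (min_le_right _ _).trans h

lemma cl_of_one_le {y : ℝ} (h : 1 ≤ y) : cl y = 1 := by
  rw [cl, min_eq_left h]
  simp

/-- direction of the `x`-th side -/
noncomputable def dir (Δ x : ℝ) : ℂ := Complex.I * Complex.exp (Complex.I * ((x * Δ : ℝ) : ℂ))

lemma dir_norm (Δ x : ℝ) : ‖dir Δ x‖ = 1 := by
  rw [dir, norm_mul, Complex.norm_I, one_mul, mul_comm, Complex.norm_exp_ofReal_mul_I]

lemma dir_sub (Δ x y : ℝ) : ‖dir Δ x - dir Δ y‖ ≤ |x * Δ - y * Δ| := by
  have h : dir Δ x - dir Δ y = Complex.I * (Complex.exp (Complex.I * ((y * Δ : ℝ) : ℂ)) *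
      (Complex.exp (Complex.I * ((x * Δ - y * Δ : ℝ) : ℂ)) - 1)) := by
    rw [dir, dir, mul_sub, mul_one, ← Complex.exp_add, mul_sub]
    congr 3
    push_cast
    ring_nf
  rw [h, norm_mul, norm_mul, Complex.norm_I, one_mul]
  have h2 : ‖Complex.exp (Complex.I * ((y * Δ : ℝ) : ℂ))‖ = 1 := by
    rw [mul_comm, Complex.norm_exp_ofReal_mul_I]
  rw [h2, one_mul]
  exact Real.norm_exp_I_mul_ofReal_sub_one_le

noncomputable def sC (m : ℕ) (L : ℕ → ℝ) (x : ℝ) : ℝ := ∑ i ∈ range m, L i * cl (x - i)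

noncomputable def XC (m : ℕ) (L : ℕ → ℝ) (Δ : ℝ) (X0 : ℂ) (x : ℝ) : ℂ :=
  X0 + ∑ i ∈ range m, ((L i * cl (x - i) : ℝ) : ℂ) * dir Δ i

lemma sC_mono (m : ℕ) (L : ℕ → ℝ) (hL : ∀ i, 0 ≤ L i) : Monotone (sC m L) := by
  intro x y h
  exact sum_le_sum fun i _ => mul_le_mul_of_nonneg_left (cl_mono (by linarith)) (hL i)

lemma sC_cont (m : ℕ) (L : ℕ → ℝ) : Continuous (sC m L) :=
  continuous_finsetSum _ fun i _ => continuous_const.mul (cl_cont.comp (continuous_id.sub continuous_const))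

lemma sC_abs (m : ℕ) (L : ℕ → ℝ) (hL : ∀ i, 0 ≤ L i) (x y : ℝ) :
    ∑ i ∈ range m, L i * |cl (y - i) - cl (x - i)| = |sC m L y - sC m L x| := by
  rcases le_total x y with h | h
  · rw [abs_of_nonneg (sub_nonneg.2 (sC_mono m L hL h)), sC, sC, ← sum_sub_distrib]
    refine sum_congr rfl fun i _ => ?_
    rw [abs_of_nonneg (sub_nonneg.2 (cl_mono (by linarith)))]
    ring
  · rw [abs_of_nonpos (sub_nonpos.2 (sC_mono m L hL h)), sC, sC, ← sum_sub_distrib, ← sum_neg_distrib]
    refine sum_congr rfl fun i _ => ?_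
    rw [abs_of_nonpos (sub_nonpos.2 (cl_mono (by linarith)))]
    ring

lemma chain_lip (m : ℕ) (L : ℕ → ℝ) (hL : ∀ i, 0 ≤ L i) (Δ : ℝ) (X0 : ℂ) (x y : ℝ) :
    ‖XC m L Δ X0 y - XC m L Δ X0 x‖ ≤ |sC m L y - sC m L x| := by
  have h : XC m L Δ X0 y - XC m L Δ X0 x =
      ∑ i ∈ range m, ((L i * (cl (y - i) - cl (x - i)) : ℝ) : ℂ) * dir Δ i := by
    rw [XC, XC, add_sub_add_left_eq_sub, ← sum_sub_distrib]
    refine sum_congr rfl fun i _ => ?_
    push_cast
    ring
  rw [h, ← sC_abs m L hL]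
  refine (norm_sum_le _ _).trans (sum_le_sum fun i _ => ?_)
  rw [norm_mul, dir_norm, mul_one, Complex.norm_real, Real.norm_eq_abs, abs_mul, abs_of_nonneg (hL i)]

lemma chain_ineq (m : ℕ) (L : ℕ → ℝ) (hL : ∀ i, 0 ≤ L i) (Δ : ℝ) (hΔ : 0 ≤ Δ) (X0 : ℂ) (x y : ℝ) :
    ‖XC m L Δ X0 y - XC m L Δ X0 x - dir Δ x * ((sC m L y - sC m L x : ℝ) : ℂ)‖ ≤
      |sC m L y - sC m L x| * (|y * Δ - x * Δ| + Δ) := by
  have h : XC m L Δ X0 y - XC m L Δ X0 x - dir Δ x * ((sC m L y - sC m L x : ℝ) : ℂ) =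
      ∑ i ∈ range m, ((L i * (cl (y - i) - cl (x - i)) : ℝ) : ℂ) * (dir Δ i - dir Δ x) := by
    rw [XC, XC, sC, sC, add_sub_add_left_eq_sub, ← sum_sub_distrib, ← sum_sub_distrib]
    push_cast
    rw [mul_sum, ← sum_sub_distrib]
    refine sum_congr rfl fun i _ => ?_
    push_cast
    ring
  rw [h, ← sC_abs m L hL, sum_mul]
  refine (norm_sum_le _ _).trans (sum_le_sum fun i _ => ?_)
  rw [norm_mul, Complex.norm_real, Real.norm_eq_abs, abs_mul, abs_of_nonneg (hL i)]
  by_cases hc : cl (y - i) = cl (x - i)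
  · rw [hc]
    simp
  · have h2 : |(i : ℝ) - x| ≤ |y - x| + 1 := by
      rcases le_total x y with h | h
      · have h3 : (i : ℝ) < y := by
          by_contra h4
          push Not at h4
          apply hc
          rw [cl_of_nonpos (by linarith), cl_of_nonpos (by linarith)]
        have h4 : x - 1 < i := by
          by_contra h4
          push Not at h4
          apply hc
          rw [cl_of_one_le (by linarith), cl_of_one_le (by linarith)]
        rw [abs_of_nonneg (sub_nonneg.2 h), abs_le]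
        constructor <;> linarith
      · have h3 : (i : ℝ) < x := by
          by_contra h4
          push Not at h4
          apply hc
          rw [cl_of_nonpos (by linarith), cl_of_nonpos (by linarith)]
        have h4 : y - 1 < i := by
          by_contra h4
          push Not at h4
          apply hc
          rw [cl_of_one_le (by linarith), cl_of_one_le (by linarith)]
        rw [abs_of_nonpos (sub_nonpos.2 h), abs_le]
        constructor <;> linarith
    have h5 : ‖dir Δ i - dir Δ x‖ ≤ |y * Δ - x * Δ| + Δ := by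
      refine (dir_sub _ _ _).trans ?_
      rw [← sub_mul, ← sub_mul, abs_mul, abs_mul, abs_of_nonneg hΔ]
      nlinarith
    exact mul_le_mul_of_nonneg_left h5 (mul_nonneg (hL i) (abs_nonneg _))

open Polynomial in
/-- approximation of a chain -/
theorem chain_approx (N : ℕ) (hN : 1 ≤ N) (m : ℕ) (L : ℕ → ℝ) (hL : ∀ i, 0 ≤ L i) (Δ : ℝ)
    (hΔ : 0 < Δ) (hm : 0 < m) (X0 : ℂ) (A : ℝ) (hA : ∑ i ∈ range m, L i = A) :
    ∃ P Q : ℝ[X], P.natDegree ≤ 2 * (N - 1) ∧ Q.natDegree ≤ 2 * (N - 1) ∧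
      (∀ τ ∈ Set.Icc (0 : ℝ) 1, ∃ x ∈ Set.Icc (0 : ℝ) m,
        ‖((P.eval τ : ℝ) : ℂ) + ((Q.eval τ : ℝ) : ℂ) * Complex.I - XC m L Δ X0 x‖ ≤
          (2 * ((A + m * Δ) / (π - 2)) ^ 2 + A) * (π ^ 4 / 4 / (N + 1) ^ 2) + Δ * A) ∧
      (∀ x ∈ Set.Icc (0 : ℝ) m, ∃ τ ∈ Set.Icc (0 : ℝ) 1,
        ‖((P.eval τ : ℝ) : ℂ) + ((Q.eval τ : ℝ) : ℂ) * Complex.I - XC m L Δ X0 x‖ ≤
          (2 * ((A + m * Δ) / (π - 2)) ^ 2 + A) * (π ^ 4 / 4 / (N + 1) ^ 2) + Δ * A) := by
  have hπ := pi_pos
  have hπ3 := pi_gt_three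
  have hA0 : 0 ≤ A := by rw [← hA]; exact sum_nonneg fun i _ => hL i
  have hm' : (0 : ℝ) < m := by exact_mod_cast hm
  set T := A + m * Δ with hT
  have hT0 : 0 < T := by positivity
  set κ := T / (π - 2) with hκ
  have hκ0 : 0 < κ := div_pos hT0 (by linarith)
  have hκT : κ * (π - 2) = T := by
    rw [hκ]; field_simp [show π - 2 ≠ 0 by linarith]
  set tm : ℝ → ℝ := fun x => sC m L x + x * Δ with htm
  have htmS : StrictMono tm := by
    intro x y h
    have := sC_mono m L hL h.le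
    simp only [htm]
    nlinarith
  have htmc : Continuous tm := (sC_cont m L).add (continuous_id.mul continuous_const)
  have s0 : sC m L 0 = 0 := by
    rw [sC]
    refine sum_eq_zero fun i _ => ?_
    rw [cl_of_nonpos (by simp), mul_zero]
  have sm : sC m L m = A := by
    rw [sC, ← hA]
    refine sum_congr rfl fun i hi => ?_
    rw [mem_range] at hi
    have : (i : ℝ) + 1 ≤ m := by exact_mod_cast hi
    rw [cl_of_one_le (by linarith), mul_one]
  have t0 : tm 0 = 0 := by simp [htm, s0]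
  have tmm : tm m = T := by simp [htm, sm, hT]
  set tt : ℝ → ℝ := fun θ => min (max ((θ - 1) * κ) 0) T with htt
  have ttm : ∀ θ, tt θ ∈ Set.Icc (tm 0) (tm m) := by
    intro θ
    rw [t0, tmm]
    exact ⟨le_min (le_max_right _ _) hT0.le, min_le_right _ _⟩
  have hex : ∀ θ, ∃ x ∈ Set.Icc (0 : ℝ) m, tm x = tt θ := fun θ =>
    intermediate_value_Icc hm'.le htmc.continuousOn (ttm θ)
  choose xx hxm hxt using hex
  have ttmono : Monotone tt := by
    intro a b h
    apply min_le_min _ le_rfl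
    apply max_le_max _ le_rfl
    nlinarith
  have ttlip : ∀ a b, a ≤ b → tt b - tt a ≤ κ * (b - a) := by
    intro a b h
    simp only [htt]
    have h1 : (b - 1) * κ = (a - 1) * κ + κ * (b - a) := by ring
    have h2 : 0 ≤ κ * (b - a) := mul_nonneg hκ0.le (by linarith)
    rw [h1]
    generalize (a - 1) * κ = p at *
    generalize κ * (b - a) = q at *
    rcases max_cases (p + q) 0 with h3 | h3 <;> rcases max_cases p 0 with h4 | h4 <;>
      rcases min_cases (max (p + q) 0) T with h5 | h5 <;>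
      rcases min_cases (max p 0) T with h6 | h6 <;> linarith
  have xmono : Monotone xx := by
    intro a b h
    have := ttmono h
    rw [← hxt, ← hxt] at this
    exact htmS.le_iff_le.1 this
  have hSΦ : ∀ a b, a ≤ b → sC m L (xx b) - sC m L (xx a) ≤ κ * (b - a) ∧
      xx b * Δ - xx a * Δ ≤ κ * (b - a) := by
    intro a b h
    have h1 := ttlip a b h
    rw [← hxt, ← hxt] at h1
    have h2 := xmono h
    have h3 := sC_mono m L hL h2
    have h4 : xx a * Δ ≤ xx b * Δ := mul_le_mul_of_nonneg_right h2 hΔ.le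
    simp only [htm] at h1
    constructor <;> linarith
  have hlow : ∀ u, u ≤ 1 → tt u = 0 := by
    intro u hu
    simp only [htt]
    rw [max_eq_right (by nlinarith), min_eq_left hT0.le]
  have hhigh : ∀ u, π - 1 ≤ u → tt u = T := by
    intro u hu
    simp only [htt]
    apply min_eq_right
    apply le_max_of_le_left
    rw [← hκT]
    nlinarith
  have x0 : ∀ u, u ≤ 1 → xx u = 0 := by
    intro u hu
    apply htmS.injective
    rw [hxt, hlow u hu, t0]
  have xm : ∀ u, π - 1 ≤ u → xx u = m := by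
    intro u hu
    apply htmS.injective
    rw [hxt, hhigh u hu, tmm]
  have key := approx N hN (fun θ => sC m L (xx θ)) (fun θ => xx θ * Δ)
    (fun θ => XC m L Δ X0 (xx θ)) (fun θ => dir Δ (xx θ)) κ Δ hκ0.le hΔ.le
    (fun a _ b _ h => sC_mono m L hL (xmono h))
    (fun a _ b _ h => mul_le_mul_of_nonneg_right (xmono h) hΔ.le)
    (by
      intro a _ b _
      rcases le_total a b with h | h
      · have h1 := (hSΦ a b h).1
        have h2 := sC_mono m L hL (xmono h)
        rw [abs_sub_comm, abs_of_nonneg (sub_nonneg.2 h2), abs_sub_comm, abs_of_nonneg (sub_nonneg.2 h)]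
        exact h1
      · have h1 := (hSΦ b a h).1
        have h2 := sC_mono m L hL (xmono h)
        rw [abs_of_nonneg (sub_nonneg.2 h2), abs_of_nonneg (sub_nonneg.2 h)]
        exact h1)
    (by
      intro a _ b _
      rcases le_total a b with h | h
      · have h1 := (hSΦ a b h).2
        have h2 : xx a * Δ ≤ xx b * Δ := mul_le_mul_of_nonneg_right (xmono h) hΔ.le
        rw [abs_sub_comm, abs_of_nonneg (sub_nonneg.2 h2), abs_sub_comm, abs_of_nonneg (sub_nonneg.2 h)]
        exact h1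
      · have h1 := (hSΦ b a h).2
        have h2 : xx b * Δ ≤ xx a * Δ := mul_le_mul_of_nonneg_right (xmono h) hΔ.le
        rw [abs_of_nonneg (sub_nonneg.2 h2), abs_of_nonneg (sub_nonneg.2 h)]
        exact h1)
    (fun a _ b _ => chain_lip m L hL Δ X0 _ _)
    (fun a _ b _ => chain_ineq m L hL Δ hΔ.le X0 _ _)
    (by
      intro u _ hu
      simp only [x0 u hu, x0 0 zero_le_one])
    (by
      intro u _ hu
      simp only [xm u hu, xm π (by linarith)])
  simp only [x0 0 zero_le_one, xm π (by linarith), s0, sm, sub_zero] at key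
  obtain ⟨P, Q, hP, hQ, h1, h2⟩ := key
  refine ⟨P, Q, hP, hQ, ?_, ?_⟩
  · intro τ hτ
    obtain ⟨t, _, hb⟩ := h1 τ hτ
    exact ⟨xx t, hxm t, hb⟩
  · intro x hx
    -- time of `x`
    have hx1 : tm 0 ≤ tm x := htmS.monotone hx.1
    have hx2 : tm x ≤ tm m := htmS.monotone hx.2
    rw [t0] at hx1
    rw [tmm] at hx2
    set θ := 1 + tm x / κ with hθ
    have hdiv : tm x / κ ≤ π - 2 := by
      rw [div_le_iff₀ hκ0, mul_comm, hκT]
      exact hx2
    have hdiv0 : 0 ≤ tm x / κ := div_nonneg hx1 hκ0.le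
    have hθm : θ ∈ Set.Icc 0 π := ⟨by linarith, by linarith⟩
    have hxx : xx θ = x := by
      apply htmS.injective
      rw [hxt]
      simp only [htt]
      have : (θ - 1) * κ = tm x := by
        rw [hθ]
        field_simp
        ring
      rw [this, max_eq_left hx1, min_eq_left hx2]
    obtain ⟨τ, hτ, hb⟩ := h2 θ hθm
    rw [hxx] at hb
    exact ⟨τ, hτ, hb⟩

end Pool.Agent.N278.PC
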