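import Pool.Agent.N278.PC.Chain

/-! Circumscribed equiangular polygons of a plane convex body. -/

open Finset Real MeasureTheory

namespace Pool.Agent.N278.PC

/-- scalar product with `e^{i ψ}` -/
noncomputable def pr (ψ : ℝ) (z : ℂ) : ℝ := z.re * cos ψ + z.im * sin ψ

lemma pr_add (ψ : ℝ) (z w : ℂ) : pr ψ (z + w) = pr ψ z + pr ψ w := by
  simp only [pr, Complex.add_re, Complex.add_im]; ring

lemma pr_sub (ψ : ℝ) (z w : ℂ) : pr ψ (z - w) = pr ψ z - pr ψ w := by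
  simp only [pr, Complex.sub_re, Complex.sub_im]; ring

lemma pr_smul (ψ c : ℝ) (z : ℂ) : pr ψ ((c : ℂ) * z) = c * pr ψ z := by
  simp only [pr, Complex.mul_re, Complex.mul_im, Complex.ofReal_re, Complex.ofReal_im]; ring

lemma pr_cont (ψ : ℝ) : Continuous (pr ψ) := by
  unfold pr
  exact (Complex.continuous_re.mul continuous_const).add (Complex.continuous_im.mul continuous_const)

lemma norm_sq_eq (z : ℂ) : ‖z‖ ^ 2 = z.re ^ 2 + z.im ^ 2 := by
  rw [← Complex.normSq_eq_norm_sq, Complex.normSq_apply]; ring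

lemma pr_sq (ψ : ℝ) (z : ℂ) : pr ψ z ^ 2 + pr (ψ + π / 2) z ^ 2 = ‖z‖ ^ 2 := by
  rw [norm_sq_eq]
  simp only [pr, cos_add_pi_div_two, sin_add_pi_div_two]
  have := sin_sq_add_cos_sq ψ
  have h2 : cos ψ ^ 2 = 1 - sin ψ ^ 2 := by linarith
  ring_nf
  rw [h2]
  ring

lemma pr_abs (ψ : ℝ) (z : ℂ) : |pr ψ z| ≤ ‖z‖ := by
  apply abs_le_of_sq_le_sq _ (norm_nonneg _)
  have := pr_sq ψ z
  nlinarith [sq_nonneg (pr (ψ + π / 2) z)]

lemma pr_abs_sub (ψ η : ℝ) (z : ℂ) : |pr ψ z - pr η z| ≤ ‖z‖ * |ψ - η| := by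
  have h : pr ψ z - pr η z = z.re * (cos ψ - cos η) + z.im * (sin ψ - sin η) := by
    simp only [pr]; ring
  rw [h]
  apply abs_le_of_sq_le_sq _ (by positivity)
  have h1 : (cos ψ - cos η) ^ 2 + (sin ψ - sin η) ^ 2 ≤ (ψ - η) ^ 2 := by
    have h2 := one_sub_sq_div_two_le_cos (x := ψ - η)
    rw [cos_sub] at h2
    have h3 := sin_sq_add_cos_sq ψ
    have h4 := sin_sq_add_cos_sq η
    nlinarith
  rw [mul_pow, sq_abs, norm_sq_eq]
  calc (z.re * (cos ψ - cos η) + z.im * (sin ψ - sin η)) ^ 2 ≤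
      (z.re ^ 2 + z.im ^ 2) * ((cos ψ - cos η) ^ 2 + (sin ψ - sin η) ^ 2) := by
        nlinarith [sq_nonneg (z.re * (sin ψ - sin η) - z.im * (cos ψ - cos η))]
    _ ≤ _ := mul_le_mul_of_nonneg_left h1 (by positivity)

/-- the point with coordinates `a, b` in the frame `e^{iψ}, i e^{iψ}` -/
noncomputable def fr (ψ a b : ℝ) : ℂ := ⟨a * cos ψ - b * sin ψ, a * sin ψ + b * cos ψ⟩

lemma pr_fr (ψ a b : ℝ) : pr ψ (fr ψ a b) = a := by
  simp only [pr, fr]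
  have := sin_sq_add_cos_sq ψ
  linear_combination a * this

lemma pr_fr' (ψ a b : ℝ) : pr (ψ + π / 2) (fr ψ a b) = b := by
  simp only [pr, fr, cos_add_pi_div_two, sin_add_pi_div_two]
  have := sin_sq_add_cos_sq ψ
  linear_combination b * this

lemma fr_pr (ψ : ℝ) (z : ℂ) : z = fr ψ (pr ψ z) (pr (ψ + π / 2) z) := by
  have := sin_sq_add_cos_sq ψ
  apply Complex.ext
  · simp only [pr, fr, cos_add_pi_div_two, sin_add_pi_div_two]
    linear_combination -z.re * this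
  · simp only [pr, fr, cos_add_pi_div_two, sin_add_pi_div_two]
    linear_combination -z.im * this

lemma pr_fr_gen (ψ a b c : ℝ) : pr (ψ + c) (fr ψ a b) = a * cos c + b * sin c := by
  simp only [pr, fr, cos_add, sin_add]
  have := sin_sq_add_cos_sq ψ
  linear_combination (a * cos c + b * sin c) * this

lemma pr_gen (ψ c : ℝ) (z : ℂ) : pr (ψ + c) z = pr ψ z * cos c + pr (ψ + π / 2) z * sin c := by
  conv_lhs => rw [fr_pr ψ z]
  exact pr_fr_gen _ _ _ _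

lemma pr_two_pi (ψ : ℝ) (z : ℂ) : pr (ψ + 2 * π) z = pr ψ z := by
  simp only [pr, cos_add_two_pi, sin_add_two_pi]

lemma dir_eq (Δ x : ℝ) : dir Δ x = fr (x * Δ) 0 1 := by
  rw [dir, mul_comm Complex.I ((x * Δ : ℝ) : ℂ), Complex.exp_mul_I]
  apply Complex.ext
  · simp only [fr, Complex.mul_re, Complex.I_re, Complex.I_im, Complex.add_im, Complex.add_re,
      Complex.mul_im, ← Complex.ofReal_cos, ← Complex.ofReal_sin, Complex.ofReal_re, Complex.ofReal_im]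
    ring
  · simp only [fr, Complex.mul_re, Complex.I_re, Complex.I_im, Complex.add_im, Complex.add_re,
      Complex.mul_im, ← Complex.ofReal_cos, ← Complex.ofReal_sin, Complex.ofReal_re, Complex.ofReal_im]
    ring

lemma seg_frontier (K : Set ℂ) (hK : IsClosed K) (a b : ℂ) (ha : a ∈ K) (hb : b ∉ interior K) :
    ∃ w ∈ segment ℝ a b, w ∈ frontier K := by
  by_contra hcon
  push Not at hcon
  have hsplit : ∀ z ∈ K, z ∈ segment ℝ a b → z ∈ interior K := by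
    intro z hz hzs
    by_contra h
    exact hcon z hzs (by rw [hK.frontier_eq]; exact ⟨hz, h⟩)
  have hbK : b ∉ K := fun h => hb (hsplit b h (right_mem_segment ℝ a b))
  have hpre : IsPreconnected (segment ℝ a b) := (convex_segment a b).isPreconnected
  have := hpre (interior K) Kᶜ isOpen_interior hK.isOpen_compl
    (by
      intro z hz
      by_cases h : z ∈ K
      · exact Or.inl (hsplit z h hz)
      · exact Or.inr h)
    ⟨a, left_mem_segment ℝ a b, hsplit a ha (left_mem_segment ℝ a b)⟩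
    ⟨b, right_mem_segment ℝ a b, hbK⟩
  obtain ⟨z, _, hz1, hz2⟩ := this
  exact hz2 (interior_subset hz1)

/-- data of a convex body -/
structure Body where
  K : Set ℂ
  conv : Convex ℝ K
  comp : IsCompact K
  ne : (interior K).Nonempty
  D : ℝ
  hD : ∀ x ∈ K, ∀ y ∈ K, ‖x - y‖ ≤ D

namespace Body

variable (B : Body)

lemma nonempty : B.K.Nonempty := B.ne.mono interior_subset

lemma exists_sup (ψ : ℝ) : ∃ v ∈ B.K, ∀ x ∈ B.K, pr ψ x ≤ pr ψ v := by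
  obtain ⟨v, hv, hm⟩ := B.comp.exists_isMaxOn B.nonempty (pr_cont ψ).continuousOn
  exact ⟨v, hv, fun x hx => hm hx⟩

/-- support point -/
noncomputable def v (ψ : ℝ) : ℂ := (B.exists_sup ψ).choose

lemma v_mem (ψ : ℝ) : B.v ψ ∈ B.K := (B.exists_sup ψ).choose_spec.1

lemma v_max (ψ : ℝ) (x : ℂ) (hx : x ∈ B.K) : pr ψ x ≤ pr ψ (B.v ψ) := (B.exists_sup ψ).choose_spec.2 x hx

/-- support function -/
noncomputable def H (ψ : ℝ) : ℝ := pr ψ (B.v ψ)

lemma le_H (ψ : ℝ) (x : ℂ) (hx : x ∈ B.K) : pr ψ x ≤ B.H ψ := B.v_max ψ x hx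

lemma H_per (ψ : ℝ) : B.H (ψ + 2 * π) = B.H ψ := by
  apply le_antisymm
  · rw [H, pr_two_pi]
    exact B.le_H ψ _ (B.v_mem _)
  · rw [H]
    have := B.le_H (ψ + 2 * π) _ (B.v_mem ψ)
    rwa [pr_two_pi] at this

/-- coordinate bounds on the support line -/
noncomputable def yp (Δ ψ : ℝ) : ℝ := (B.H (ψ + Δ) - B.H ψ * cos Δ) / sin Δ
noncomputable def ym (Δ ψ : ℝ) : ℝ := -(B.H (ψ - Δ) - B.H ψ * cos Δ) / sin Δ

lemma v_le_yp (Δ ψ : ℝ) (hs : 0 < sin Δ) : pr (ψ + π / 2) (B.v ψ) ≤ B.yp Δ ψ := by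
  rw [yp, le_div_iff₀ hs]
  have h := B.le_H (ψ + Δ) _ (B.v_mem ψ)
  rw [pr_gen] at h
  have : pr ψ (B.v ψ) = B.H ψ := rfl
  rw [this] at h
  linarith

lemma ym_le_v (Δ ψ : ℝ) (hs : 0 < sin Δ) : B.ym Δ ψ ≤ pr (ψ + π / 2) (B.v ψ) := by
  rw [ym, div_le_iff₀ hs]
  have h := B.le_H (ψ + (-Δ)) _ (B.v_mem ψ)
  rw [pr_gen, cos_neg, sin_neg] at h
  have : pr ψ (B.v ψ) = B.H ψ := rfl
  rw [this, ← sub_eq_add_neg] at h
  linarith

/-- side length -/
noncomputable def L (Δ ψ : ℝ) : ℝ := B.yp Δ ψ - B.ym Δ ψ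

lemma L_nonneg (Δ ψ : ℝ) (hs : 0 < sin Δ) : 0 ≤ B.L Δ ψ := by
  have h1 := B.v_le_yp Δ ψ hs
  have h2 := B.ym_le_v Δ ψ hs
  rw [L]; linarith

lemma yp_le (Δ ψ : ℝ) (hs : 0 < sin Δ) (hc : 0 ≤ cos Δ) :
    B.yp Δ ψ ≤ pr (ψ + π / 2) (B.v (ψ + Δ)) := by
  rw [yp, div_le_iff₀ hs]
  have h1 : B.H (ψ + Δ) = pr ψ (B.v (ψ + Δ)) * cos Δ + pr (ψ + π / 2) (B.v (ψ + Δ)) * sin Δ := by
    rw [H, pr_gen]
  have h2 := B.le_H ψ _ (B.v_mem (ψ + Δ))
  have h3 := mul_le_mul_of_nonneg_right h2 hc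
  linarith

lemma le_ym (Δ ψ : ℝ) (hs : 0 < sin Δ) (hc : 0 ≤ cos Δ) :
    pr (ψ + π / 2) (B.v (ψ - Δ)) ≤ B.ym Δ ψ := by
  rw [ym, le_div_iff₀ hs]
  have h1 : B.H (ψ - Δ) = pr ψ (B.v (ψ - Δ)) * cos Δ - pr (ψ + π / 2) (B.v (ψ - Δ)) * sin Δ := by
    have : pr (ψ - Δ) (B.v (ψ - Δ)) = pr (ψ + (-Δ)) (B.v (ψ - Δ)) := by rw [sub_eq_add_neg]
    rw [H, this, pr_gen, cos_neg, sin_neg]
    ring
  have h2 := B.le_H ψ _ (B.v_mem (ψ - Δ))
  have h3 := mul_le_mul_of_nonneg_right h2 hc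
  linarith

/-- corner identity -/
lemma corner (Δ ψ : ℝ) (hs : 0 < sin Δ) :
    fr ψ (B.H ψ) (B.yp Δ ψ) = fr (ψ + Δ) (B.H (ψ + Δ)) (B.ym Δ (ψ + Δ)) := by
  have h1 : fr (ψ + Δ) (B.H (ψ + Δ)) (B.ym Δ (ψ + Δ)) =
      fr ψ (pr ψ (fr (ψ + Δ) (B.H (ψ + Δ)) (B.ym Δ (ψ + Δ))))
        (pr (ψ + π / 2) (fr (ψ + Δ) (B.H (ψ + Δ)) (B.ym Δ (ψ + Δ)))) := fr_pr ψ _
  rw [h1]
  have e1 : pr ψ (fr (ψ + Δ) (B.H (ψ + Δ)) (B.ym Δ (ψ + Δ))) = B.H ψ := by
    have : pr ψ (fr (ψ + Δ) (B.H (ψ + Δ)) (B.ym Δ (ψ + Δ))) =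
        pr ((ψ + Δ) + (-Δ)) (fr (ψ + Δ) (B.H (ψ + Δ)) (B.ym Δ (ψ + Δ))) := by
      rw [add_neg_cancel_right]
    rw [this, pr_fr_gen, cos_neg, sin_neg, ym, add_sub_cancel_right]
    field_simp
    ring
  have e2 : pr (ψ + π / 2) (fr (ψ + Δ) (B.H (ψ + Δ)) (B.ym Δ (ψ + Δ))) = B.yp Δ ψ := by
    have : pr (ψ + π / 2) (fr (ψ + Δ) (B.H (ψ + Δ)) (B.ym Δ (ψ + Δ))) =
        pr ((ψ + Δ) + (π / 2 - Δ)) (fr (ψ + Δ) (B.H (ψ + Δ)) (B.ym Δ (ψ + Δ))) := by
      congr 1; ring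
    rw [this, pr_fr_gen, cos_pi_div_two_sub, sin_pi_div_two_sub, ym, yp, add_sub_cancel_right]
    have := sin_sq_add_cos_sq Δ
    field_simp
    linear_combination B.H (ψ + Δ) * this
  rw [e1, e2]

/-- the value of the chain -/
lemma chain_val (Δ : ℝ) (hs : 0 < sin Δ) (m : ℕ) (j : ℕ) (hj : j < m) (x : ℝ) (hx0 : (j : ℝ) ≤ x)
    (hx1 : x ≤ j + 1) :
    XC m (fun i => B.L Δ (i * Δ)) Δ (fr 0 (B.H 0) (B.ym Δ 0)) x =
      fr (j * Δ) (B.H (j * Δ)) (B.ym Δ (j * Δ) + (x - j) * B.L Δ (j * Δ)) := by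
  have hstep : ∀ (ψ a b c : ℝ), fr ψ a b + ((c : ℝ) : ℂ) * fr ψ 0 1 = fr ψ a (b + c) := by
    intro ψ a b c
    apply Complex.ext
    · simp only [fr, Complex.add_re, Complex.mul_re, Complex.ofReal_re, Complex.ofReal_im]; ring
    · simp only [fr, Complex.add_im, Complex.mul_im, Complex.ofReal_re, Complex.ofReal_im]; ring
  -- partial sums
  have hpart : ∀ n : ℕ, fr 0 (B.H 0) (B.ym Δ 0) +
      ∑ i ∈ range n, ((B.L Δ (i * Δ) : ℝ) : ℂ) * dir Δ i =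
      fr (n * Δ) (B.H (n * Δ)) (B.ym Δ (n * Δ)) := by
    intro n
    induction n with
    | zero => simp
    | succ n ih =>
      rw [sum_range_succ, ← add_assoc, ih, dir_eq, hstep]
      have h1 : B.ym Δ (n * Δ) + B.L Δ (n * Δ) = B.yp Δ (n * Δ) := by rw [L]; ring
      have h2 : ((n + 1 : ℕ) : ℝ) * Δ = n * Δ + Δ := by push_cast; ring
      rw [h1, h2, B.corner Δ _ hs]
  have hsum : ∑ i ∈ range m, ((B.L Δ (i * Δ) * cl (x - i) : ℝ) : ℂ) * dir Δ i =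
      ∑ i ∈ range j, ((B.L Δ (i * Δ) : ℝ) : ℂ) * dir Δ i +
        (((x - j) * B.L Δ (j * Δ) : ℝ) : ℂ) * dir Δ j := by
    rw [← sum_subset (range_subset_range.2 (Nat.succ_le_of_lt hj))]
    · rw [sum_range_succ]
      congr 1
      · refine sum_congr rfl fun i hi => ?_
        rw [mem_range] at hi
        have : (i : ℝ) + 1 ≤ j := by exact_mod_cast hi
        rw [cl_of_one_le (by linarith), mul_one]
      · have : cl (x - j) = x - j := by
          rw [cl, min_eq_right (by linarith), max_eq_right (by linarith)]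
        rw [this, mul_comm (x - (j : ℝ))]
    · intro i _ hi
      rw [mem_range, not_lt] at hi
      have : (j : ℝ) + 1 ≤ i := by exact_mod_cast hi
      rw [cl_of_nonpos (by linarith)]
      simp
  rw [XC, hsum, ← add_assoc, hpart, dir_eq, hstep]

/-- chain points are close to the frontier -/
lemma chain_near (Δ : ℝ) (hΔ : 0 < Δ) (hs : 0 < sin Δ) (hc : 0 ≤ cos Δ) (ψ y : ℝ)
    (hy1 : B.ym Δ ψ ≤ y) (hy2 : y ≤ B.yp Δ ψ) :
    ∃ w ∈ frontier B.K, ‖fr ψ (B.H ψ) y - w‖ ≤ B.D * Δ := by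
  set z := fr ψ (B.H ψ) y with hz
  have h1 := B.yp_le Δ ψ hs hc
  have h2 := B.le_ym Δ ψ hs hc
  set a := B.v (ψ - Δ) with ha
  set b := B.v (ψ + Δ) with hb
  have haK : a ∈ B.K := B.v_mem _
  have hbK : b ∈ B.K := B.v_mem _
  have hvK : B.v ψ ∈ B.K := B.v_mem _
  have hla : B.H ψ - B.D * Δ ≤ pr ψ a := by
    have e1 := pr_abs_sub ψ (ψ - Δ) (B.v ψ - a)
    have e2 : pr (ψ - Δ) (B.v ψ - a) ≤ 0 := by
      rw [pr_sub]
      have := B.v_max (ψ - Δ) _ hvK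
      linarith
    have e3 : |ψ - (ψ - Δ)| = Δ := by rw [sub_sub_cancel, abs_of_pos hΔ]
    rw [e3] at e1
    have e4 := le_of_abs_le e1
    have e5 := mul_le_mul_of_nonneg_right (B.hD _ hvK _ haK) hΔ.le
    rw [pr_sub ψ] at e4
    have e6 : pr ψ (B.v ψ) = B.H ψ := rfl
    linarith
  have hlb : B.H ψ - B.D * Δ ≤ pr ψ b := by
    have e1 := pr_abs_sub ψ (ψ + Δ) (B.v ψ - b)
    have e2 : pr (ψ + Δ) (B.v ψ - b) ≤ 0 := by
      rw [pr_sub]
      have := B.v_max (ψ + Δ) _ hvK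
      linarith
    have e3 : |ψ - (ψ + Δ)| = Δ := by rw [sub_add_cancel_left, abs_neg, abs_of_pos hΔ]
    rw [e3] at e1
    have e4 := le_of_abs_le e1
    have e5 := mul_le_mul_of_nonneg_right (B.hD _ hvK _ hbK) hΔ.le
    rw [pr_sub ψ] at e4
    have e6 : pr ψ (B.v ψ) = B.H ψ := rfl
    linarith
  -- the point of `K` below `z`
  obtain ⟨μ, hμ0, hμ1, hμ⟩ : ∃ μ : ℝ, 0 ≤ μ ∧ μ ≤ 1 ∧
      (1 - μ) * pr (ψ + π / 2) a + μ * pr (ψ + π / 2) b = y := by
    set p := pr (ψ + π / 2) a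
    set q := pr (ψ + π / 2) b
    have hpy : p ≤ y := h2.trans hy1
    have hyq : y ≤ q := hy2.trans h1
    rcases eq_or_lt_of_le (hpy.trans hyq) with h | h
    · exact ⟨0, le_refl _, zero_le_one, by linarith⟩
    · refine ⟨(y - p) / (q - p), div_nonneg (by linarith) (by linarith), ?_, ?_⟩
      · rw [div_le_one (by linarith)]; linarith
      · have : q - p ≠ 0 := by linarith
        field_simp
        ring
  set z' : ℂ := ((1 - μ : ℝ) : ℂ) * a + ((μ : ℝ) : ℂ) * b with hz'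
  have hz'K : z' ∈ B.K := by
    have := B.conv haK hbK (a := 1 - μ) (b := μ) (by linarith) hμ0 (by ring)
    simpa [hz', Complex.real_smul] using this
  have hz'y : pr (ψ + π / 2) z' = y := by rw [hz', pr_add, pr_smul, pr_smul, hμ]
  have hz'l : B.H ψ - B.D * Δ ≤ pr ψ z' := by
    rw [hz', pr_add, pr_smul, pr_smul]
    nlinarith
  have hz'u : pr ψ z' ≤ B.H ψ := B.le_H ψ _ hz'K
  have hdist : ‖z - z'‖ ≤ B.D * Δ := by
    have h3 := pr_sq ψ (z - z')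
    rw [pr_sub, pr_sub, hz'y, hz, pr_fr, pr_fr', sub_self] at h3
    have h4 : ‖z - z'‖ ^ 2 ≤ (B.D * Δ) ^ 2 := by
      rw [hz, ← h3]
      nlinarith
    have h5 : 0 ≤ B.D * Δ := by linarith
    exact abs_le_of_sq_le_sq' h4 h5 |>.2
  have hzint : z ∉ interior B.K := by
    intro hzi
    rw [mem_interior_iff_mem_nhds, Metric.mem_nhds_iff] at hzi
    obtain ⟨ε, hε, hball⟩ := hzi
    have h3 : z + ((ε / 2 : ℝ) : ℂ) * fr ψ 1 0 ∈ B.K := by
      apply hball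
      rw [Metric.mem_ball, dist_eq_norm, add_sub_cancel_left, norm_mul, Complex.norm_real,
        Real.norm_eq_abs, abs_of_pos (by linarith)]
      have h4 := pr_sq ψ (fr ψ 1 0)
      rw [pr_fr, pr_fr'] at h4
      have h5 : ‖fr ψ 1 0‖ = 1 := by
        have : ‖fr ψ 1 0‖ ^ 2 = 1 := by rw [← h4]; norm_num
        exact (sq_eq_sq₀ (norm_nonneg _) zero_le_one).1 (by rw [this]; norm_num)
      rw [h5]; linarith
    have h6 := B.le_H ψ _ h3
    rw [pr_add, pr_smul, hz, pr_fr, pr_fr] at h6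
    linarith
  obtain ⟨w, hw1, hw2⟩ := seg_frontier B.K B.comp.isClosed z' z hz'K hzint
  refine ⟨w, hw2, ?_⟩
  rw [segment_symm] at hw1
  have h6 : dist z w ≤ dist z z' := by
    have := dist_add_dist_of_mem_segment hw1
    linarith [dist_nonneg (x := w) (y := z')]
  rw [dist_eq_norm, dist_eq_norm] at h6
  exact h6.trans hdist

/-- supporting angle at a frontier point -/
lemma exists_angle (w : ℂ) (hw : w ∈ frontier B.K) :
    ∃ ψ ∈ Set.Ico (0 : ℝ) (2 * π), ∀ x ∈ B.K, pr ψ x ≤ pr ψ w := by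
  have hwi : w ∉ interior B.K := by
    rw [B.comp.isClosed.frontier_eq] at hw
    exact hw.2
  obtain ⟨f, hf⟩ := geometric_hahn_banach_open_point B.conv.interior isOpen_interior hwi
  set c : ℂ := ⟨f 1, f Complex.I⟩ with hc
  have hfz : ∀ z : ℂ, f z = z.re * c.re + z.im * c.im := by
    intro z
    conv_lhs => rw [← Complex.re_add_im z]
    rw [map_add]
    have e1 : ((z.re : ℂ)) = z.re • (1 : ℂ) := by simp
    have e2 : ((z.im : ℂ)) * Complex.I = z.im • Complex.I := by simp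
    rw [e1, e2, map_smul, map_smul]
    simp [hc, smul_eq_mul]
  have hle : ∀ x ∈ B.K, f x ≤ f w := by
    intro x hx
    have hx' : x ∈ closure (interior B.K) := by
      rw [B.conv.closure_interior_eq_closure_of_nonempty_interior B.ne]
      exact subset_closure hx
    have hcl : IsClosed {x : ℂ | f x ≤ f w} := isClosed_le f.continuous continuous_const
    exact closure_minimal (fun y hy => (hf y hy).le) hcl hx'
  have hc0 : c ≠ 0 := by
    intro h0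
    obtain ⟨y, hy⟩ := B.ne
    have h1 := hf y hy
    rw [hfz, hfz, h0] at h1
    simp at h1
  have hcn : 0 < ‖c‖ := norm_pos_iff.2 hc0
  have hpr : ∀ z : ℂ, f z = ‖c‖ * pr (Complex.arg c) z := by
    intro z
    rw [hfz, pr]
    have e1 : ‖c‖ * cos (Complex.arg c) = c.re := Complex.norm_mul_cos_arg c
    have e2 : ‖c‖ * sin (Complex.arg c) = c.im := Complex.norm_mul_sin_arg c
    rw [← e1, ← e2]
    ring
  have hle2 : ∀ x ∈ B.K, pr (Complex.arg c) x ≤ pr (Complex.arg c) w := by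
    intro x hx
    have := hle x hx
    rw [hpr, hpr] at this
    exact le_of_mul_le_mul_left this hcn
  have h1 := Complex.neg_pi_lt_arg c
  have h2 := Complex.arg_le_pi c
  have hπ := pi_pos
  by_cases h3 : 0 ≤ Complex.arg c
  · exact ⟨Complex.arg c, ⟨h3, by linarith⟩, hle2⟩
  · push Not at h3
    refine ⟨Complex.arg c + 2 * π, ⟨by linarith, by linarith⟩, ?_⟩
    intro x hx
    rw [pr_two_pi, pr_two_pi]
    exact hle2 x hx

end Body

end Pool.Agent.N278.PC
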