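import Mathlib

/-! A positive discrete operator with trigonometric weights of degree `N - 1` (Fejer-Korovkin kernel
sampled at the Chebyshev nodes), with second moment `O(1/N²)` in the angular variable. -/

open Finset Real

namespace Pool.Agent.N278.PC

/-- the nodes -/
noncomputable def nd (N k : ℕ) : ℝ := (2 * k + 1) * (π / (2 * N))

noncomputable def al (N a : ℕ) : ℝ := sin ((a + 1) * (π / (N + 1)))

noncomputable def SS (N : ℕ) : ℝ := ∑ a ∈ range N, al N a ^ 2

/-- the kernel -/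
noncomputable def Kn (N : ℕ) (v : ℝ) : ℝ :=
  ∑ a ∈ range N, ∑ b ∈ range N, al N a * al N b * cos (((a : ℝ) - b) * v)

lemma Kn_nonneg (N : ℕ) (v : ℝ) : 0 ≤ Kn N v := by
  have h : Kn N v = (∑ a ∈ range N, al N a * cos (a * v)) ^ 2 +
      (∑ a ∈ range N, al N a * sin (a * v)) ^ 2 := by
    unfold Kn
    rw [pow_two, pow_two, sum_mul_sum, sum_mul_sum, ← sum_add_distrib]
    refine sum_congr rfl fun a _ => ?_
    rw [← sum_add_distrib]
    refine sum_congr rfl fun b _ => ?_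
    rw [sub_mul, cos_sub]
    ring
  rw [h]
  positivity

lemma tele (x : ℝ) (N : ℕ) : 2 * sin x * ∑ k ∈ range N, cos ((2 * k + 1) * x) = sin (2 * N * x) := by
  rw [mul_sum]
  have h : ∀ k ∈ range N, 2 * sin x * cos ((2 * (k : ℝ) + 1) * x) =
      sin (2 * ((k + 1 : ℕ) : ℝ) * x) - sin (2 * (k : ℝ) * x) := by
    intro k _
    have h1 : 2 * ((k + 1 : ℕ) : ℝ) * x = (2 * (k : ℝ) + 1) * x + x := by push_cast; ring
    have h2 : 2 * (k : ℝ) * x = (2 * (k : ℝ) + 1) * x - x := by ring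
    rw [h1, h2, sin_add, sin_sub]
    ring
  rw [sum_congr rfl h, sum_range_sub (fun k : ℕ => sin (2 * (k : ℝ) * x))]
  simp

lemma node_sum (N : ℕ) (hN : 1 ≤ N) (m : ℤ) (hm : |m| < 2 * N) :
    ∑ k ∈ range N, cos (m * nd N k) = if m = 0 then (N : ℝ) else 0 := by
  split_ifs with h0
  · simp [h0]
  · have hN0 : (0 : ℝ) < N := by exact_mod_cast hN
    set x : ℝ := m * (π / (2 * N)) with hx
    have hsum : ∑ k ∈ range N, cos (m * nd N k) = ∑ k ∈ range N, cos ((2 * k + 1) * x) := by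
      refine sum_congr rfl fun k _ => ?_
      rw [nd, hx]
      congr 1
      ring
    rw [hsum]
    have h1 := tele x N
    have h2 : sin (2 * N * x) = 0 := by
      have : 2 * N * x = m * π := by rw [hx]; field_simp
      rw [this]
      exact sin_int_mul_pi m
    rw [h2] at h1
    have h3 : sin x ≠ 0 := by
      intro hs
      rw [sin_eq_zero_iff] at hs
      obtain ⟨j, hj⟩ := hs
      have hj' : (j : ℝ) * (2 * N) = m := by
        have h4 : (j : ℝ) * π = m * (π / (2 * N)) := by rw [hj, hx]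
        field_simp at h4
        linarith
      have hj2 : j * (2 * N) = m := by exact_mod_cast hj'
      have hj0 : j ≠ 0 := by
        rintro rfl
        apply h0
        rw [← hj2]
        simp
      have : (2 * N : ℤ) ≤ |m| := by
        rw [← hj2, abs_mul]
        have h5 : 1 ≤ |j| := Int.one_le_abs hj0
        have h6 : |(2 * N : ℤ)| = 2 * N := abs_of_nonneg (by positivity)
        rw [h6]
        nlinarith [(by positivity : (0 : ℤ) ≤ 2 * N)]
      omega
    have h4 : (2 * sin x) ≠ 0 := by positivity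
    exact (mul_eq_zero.1 h1).resolve_left h4

lemma two_sum (N : ℕ) (hN : 1 ≤ N) (m : ℤ) (hm : |m| < 2 * N) (θ : ℝ) :
    ∑ k ∈ range N, (cos (m * (θ - nd N k)) + cos (m * (θ + nd N k))) =
      if m = 0 then 2 * (N : ℝ) else 0 := by
  have h : ∀ k ∈ range N, cos (m * (θ - nd N k)) + cos (m * (θ + nd N k)) =
      2 * cos (m * θ) * cos (m * nd N k) := by
    intro k _
    rw [mul_sub, mul_add, cos_sub, cos_add]
    ring
  rw [sum_congr rfl h, ← mul_sum, node_sum N hN m hm]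
  split_ifs with h0
  · simp [h0]
  · simp

lemma sum_Kn (N : ℕ) (hN : 1 ≤ N) (θ : ℝ) :
    ∑ k ∈ range N, (Kn N (θ - nd N k) + Kn N (θ + nd N k)) = 2 * N * SS N := by
  have h1 : ∑ k ∈ range N, (Kn N (θ - nd N k) + Kn N (θ + nd N k)) =
      ∑ a ∈ range N, ∑ b ∈ range N, al N a * al N b *
        ∑ k ∈ range N, (cos ((((a : ℤ) - b : ℤ) : ℝ) * (θ - nd N k)) +
          cos ((((a : ℤ) - b : ℤ) : ℝ) * (θ + nd N k))) := by
    simp only [Kn, mul_sum, ← sum_add_distrib]
    rw [sum_comm]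
    refine sum_congr rfl fun a _ => ?_
    rw [sum_comm]
    refine sum_congr rfl fun b _ => ?_
    refine sum_congr rfl fun k _ => ?_
    push_cast
    ring
  rw [h1, SS, mul_sum]
  refine sum_congr rfl fun a ha => ?_
  have h2 : ∀ b ∈ range N, al N a * al N b *
        ∑ k ∈ range N, (cos ((((a : ℤ) - b : ℤ) : ℝ) * (θ - nd N k)) +
          cos ((((a : ℤ) - b : ℤ) : ℝ) * (θ + nd N k))) =
      if b = a then al N a * al N b * (2 * N) else 0 := by
    intro b hb
    rw [mem_range] at ha hb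
    rw [two_sum N hN _ (by rw [abs_lt]; constructor <;> omega)]
    by_cases hba : b = a
    · simp [hba]
    · have : ((a : ℤ) - b) ≠ 0 := by omega
      simp [this, hba]
  rw [sum_congr rfl h2, sum_ite_eq', if_pos ha]
  ring

lemma al_N (N : ℕ) : al N N = 0 := by
  rw [al]
  have : ((N : ℝ) + 1) * (π / (N + 1)) = π := by
    have : (N : ℝ) + 1 ≠ 0 := by positivity
    field_simp
  rw [this, sin_pi]

lemma al_rec (N a : ℕ) : al N (a + 2) + al N a = 2 * cos (π / (N + 1)) * al N (a + 1) := by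
  simp only [al]
  have h1 : (((a + 2 : ℕ) : ℝ) + 1) * (π / (N + 1)) = ((a : ℝ) + 2) * (π / (N + 1)) + π / (N + 1) := by
    push_cast; ring
  have h2 : ((a : ℝ) + 1) * (π / (N + 1)) = ((a : ℝ) + 2) * (π / (N + 1)) - π / (N + 1) := by ring
  have h3 : (((a + 1 : ℕ) : ℝ) + 1) * (π / (N + 1)) = ((a : ℝ) + 2) * (π / (N + 1)) := by
    push_cast; ring
  rw [h1, h2, h3, sin_add, sin_sub]
  ring

lemma al_one (N : ℕ) : al N 1 = 2 * cos (π / (N + 1)) * al N 0 := by
  simp only [al]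
  have h1 : (((1 : ℕ) : ℝ) + 1) * (π / (N + 1)) = 2 * (π / (N + 1)) := by push_cast; ring
  have h2 : (((0 : ℕ) : ℝ) + 1) * (π / (N + 1)) = π / (N + 1) := by push_cast; ring
  rw [h1, h2, sin_two_mul]
  ring

lemma al_corr_aux (N n : ℕ) :
    2 * ∑ a ∈ range (n + 1), al N a * al N (a + 1) =
      2 * cos (π / (N + 1)) * ∑ a ∈ range (n + 1), al N a ^ 2 + al N n * al N (n + 1) := by
  induction n with
  | zero =>
    simp only [zero_add, sum_range_one, al_one]
    ring
  | succ n ih =>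
    rw [sum_range_succ, mul_add, ih, sum_range_succ _ (n + 1)]
    have h := al_rec N n
    have h2 : al N (n + 1 + 1) = 2 * cos (π / (N + 1)) * al N (n + 1) - al N n := by
      rw [← h]; ring
    rw [h2]
    ring

lemma al_corr (N : ℕ) (hN : 1 ≤ N) :
    ∑ a ∈ range N, al N a * al N (a + 1) = cos (π / (N + 1)) * SS N := by
  obtain ⟨n, rfl⟩ : ∃ n, N = n + 1 := ⟨N - 1, by omega⟩
  have h := al_corr_aux (n + 1) n
  rw [al_N (n + 1)] at h
  rw [SS]
  linarith

lemma sum_KnCos (N : ℕ) (hN : 1 ≤ N) (θ : ℝ) :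
    ∑ k ∈ range N, (Kn N (θ - nd N k) * cos (θ - nd N k) + Kn N (θ + nd N k) * cos (θ + nd N k)) =
      2 * N * (cos (π / (N + 1)) * SS N) := by
  have hK : ∀ v, Kn N v * cos v = ∑ a ∈ range N, ∑ b ∈ range N, al N a * al N b *
      (1 / 2 * (cos ((((a : ℤ) - b + 1 : ℤ) : ℝ) * v) + cos ((((a : ℤ) - b - 1 : ℤ) : ℝ) * v))) := by
    intro v
    rw [Kn, sum_mul]
    refine sum_congr rfl fun a _ => ?_
    rw [sum_mul]
    refine sum_congr rfl fun b _ => ?_
    have h1 : (((a : ℤ) - b + 1 : ℤ) : ℝ) * v = ((a : ℝ) - b) * v + v := by push_cast; ring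
    have h2 : (((a : ℤ) - b - 1 : ℤ) : ℝ) * v = ((a : ℝ) - b) * v - v := by push_cast; ring
    rw [h1, h2, cos_add, cos_sub]
    ring
  have h1 : ∑ k ∈ range N, (Kn N (θ - nd N k) * cos (θ - nd N k) +
      Kn N (θ + nd N k) * cos (θ + nd N k)) =
      ∑ a ∈ range N, ∑ b ∈ range N, al N a * al N b * (1 / 2 *
        (∑ k ∈ range N, (cos ((((a : ℤ) - b + 1 : ℤ) : ℝ) * (θ - nd N k)) +
          cos ((((a : ℤ) - b + 1 : ℤ) : ℝ) * (θ + nd N k))) +
        ∑ k ∈ range N, (cos ((((a : ℤ) - b - 1 : ℤ) : ℝ) * (θ - nd N k)) +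
          cos ((((a : ℤ) - b - 1 : ℤ) : ℝ) * (θ + nd N k))))) := by
    simp only [hK, mul_sum, ← sum_add_distrib]
    rw [sum_comm]
    refine sum_congr rfl fun a _ => ?_
    rw [sum_comm]
    refine sum_congr rfl fun b _ => ?_
    refine sum_congr rfl fun k _ => ?_
    ring
  rw [h1]
  have h2 : ∀ a ∈ range N, ∀ b ∈ range N, al N a * al N b * (1 / 2 *
        (∑ k ∈ range N, (cos ((((a : ℤ) - b + 1 : ℤ) : ℝ) * (θ - nd N k)) +
          cos ((((a : ℤ) - b + 1 : ℤ) : ℝ) * (θ + nd N k))) +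
        ∑ k ∈ range N, (cos ((((a : ℤ) - b - 1 : ℤ) : ℝ) * (θ - nd N k)) +
          cos ((((a : ℤ) - b - 1 : ℤ) : ℝ) * (θ + nd N k))))) =
      (if b = a + 1 then al N a * al N b * N else 0) + (if a = b + 1 then al N a * al N b * N else 0) := by
    intro a ha b hb
    rw [mem_range] at ha hb
    rw [two_sum N hN _ (by rw [abs_lt]; constructor <;> omega),
      two_sum N hN _ (by rw [abs_lt]; constructor <;> omega)]
    have e1 : ((a : ℤ) - b + 1 = 0) ↔ b = a + 1 := by omega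
    have e2 : ((a : ℤ) - b - 1 = 0) ↔ a = b + 1 := by omega
    simp only [e1, e2]
    split_ifs <;> ring
  rw [sum_congr rfl fun a ha => sum_congr rfl (h2 a ha)]
  simp only [sum_add_distrib]
  have h3 : ∑ a ∈ range N, ∑ b ∈ range N, (if b = a + 1 then al N a * al N b * (N : ℝ) else 0) =
      N * ∑ a ∈ range N, al N a * al N (a + 1) := by
    rw [mul_sum]
    refine sum_congr rfl fun a ha => ?_
    rw [sum_ite_eq']
    split_ifs with h
    · ring
    · rw [mem_range] at h ha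
      have : a + 1 = N := by omega
      rw [this, al_N]
      ring
  have h4 : ∑ a ∈ range N, ∑ b ∈ range N, (if a = b + 1 then al N a * al N b * (N : ℝ) else 0) =
      N * ∑ a ∈ range N, al N a * al N (a + 1) := by
    rw [sum_comm, mul_sum]
    refine sum_congr rfl fun a ha => ?_
    rw [sum_ite_eq']
    split_ifs with h
    · ring
    · rw [mem_range] at h ha
      have : a + 1 = N := by omega
      rw [this, al_N]
      ring
  rw [h3, h4, al_corr N hN]
  ring

lemma SS_pos (N : ℕ) (hN : 1 ≤ N) : 0 < SS N := by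
  have h0 : 0 < al N 0 := by
    rw [al]
    have hN1 : (1 : ℝ) ≤ N := by exact_mod_cast hN
    apply sin_pos_of_pos_of_lt_pi
    · positivity
    · have : (((0 : ℕ) : ℝ) + 1) * (π / (N + 1)) = π / (N + 1) := by push_cast; ring
      rw [this, div_lt_iff₀ (by positivity)]
      nlinarith [pi_pos]
  have : al N 0 ^ 2 ≤ SS N :=
    single_le_sum (f := fun a => al N a ^ 2) (fun _ _ => sq_nonneg _) (mem_range.2 (by omega))
  have h1 : 0 < al N 0 ^ 2 := by positivity
  linarith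

/-- the weights -/
noncomputable def wt (N k : ℕ) (θ : ℝ) : ℝ :=
  (Kn N (θ - nd N k) + Kn N (θ + nd N k)) / (2 * N * SS N)

lemma wt_nonneg (N k : ℕ) (θ : ℝ) : 0 ≤ wt N k θ := by
  have h1 := Kn_nonneg N (θ - nd N k)
  have h2 := Kn_nonneg N (θ + nd N k)
  have h3 : 0 ≤ SS N := sum_nonneg fun _ _ => sq_nonneg _
  rw [wt]
  positivity

lemma wt_sum (N : ℕ) (hN : 1 ≤ N) (θ : ℝ) : ∑ k ∈ range N, wt N k θ = 1 := by
  simp only [wt]
  rw [← sum_div, sum_Kn N hN]
  have h3 := SS_pos N hN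
  have h4 : (0 : ℝ) < N := by exact_mod_cast hN
  exact div_self (by positivity)

lemma nd_mem (N k : ℕ) (hk : k < N) : nd N k ∈ Set.Icc 0 π := by
  have hk' : (k : ℝ) + 1 ≤ N := by exact_mod_cast hk
  have h4 : (0 : ℝ) < N := lt_of_lt_of_le (by positivity) hk'
  rw [nd]
  constructor
  · positivity
  · have : (2 * (k : ℝ) + 1) * (π / (2 * N)) = ((2 * k + 1) / (2 * N)) * π := by ring
    rw [this]
    have : (2 * (k : ℝ) + 1) / (2 * N) ≤ 1 := by
      rw [div_le_one (by positivity)]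
      linarith
    nlinarith [pi_pos]

lemma sq_le (θ u : ℝ) (h : |θ - u| ≤ π) : (θ - u) ^ 2 ≤ π ^ 2 / 2 * (1 - cos (θ - u)) := by
  have h1 := cos_le_one_sub_mul_cos_sq h
  have h2 : 0 < π ^ 2 := by positivity
  have h3 : 2 / π ^ 2 * (θ - u) ^ 2 ≤ 1 - cos (θ - u) := by linarith
  rw [div_mul_eq_mul_div, div_le_iff₀ h2] at h3
  linarith

lemma wt_moment (N : ℕ) (hN : 1 ≤ N) (θ : ℝ) (hθ : θ ∈ Set.Icc 0 π) :
    ∑ k ∈ range N, wt N k θ * (θ - nd N k) ^ 2 ≤ π ^ 4 / 4 / (N + 1) ^ 2 := by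
  have h3 := SS_pos N hN
  have h4 : (0 : ℝ) < N := by exact_mod_cast hN
  have hc : 0 < 2 * N * SS N := by positivity
  have key : ∀ k ∈ range N, wt N k θ * (θ - nd N k) ^ 2 ≤
      (π ^ 2 / 2 / (2 * N * SS N)) * ((Kn N (θ - nd N k) + Kn N (θ + nd N k)) -
        (Kn N (θ - nd N k) * cos (θ - nd N k) + Kn N (θ + nd N k) * cos (θ + nd N k))) := by
    intro k hk
    rw [mem_range] at hk
    have hu := nd_mem N k hk
    set u := nd N k with hu'
    have h5 : |θ - u| ≤ π := by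
      rw [abs_le]
      constructor <;> linarith [hθ.1, hθ.2, hu.1, hu.2]
    have h6 := sq_le θ u h5
    have h7 : cos (θ + u) ≤ cos (θ - u) := by
      rw [cos_add, cos_sub]
      have := mul_nonneg (sin_nonneg_of_mem_Icc hθ) (sin_nonneg_of_mem_Icc hu)
      linarith
    have h8 := Kn_nonneg N (θ - u)
    have h9 := Kn_nonneg N (θ + u)
    have h10 : Kn N (θ - u) * (θ - u) ^ 2 ≤ π ^ 2 / 2 * (Kn N (θ - u) * (1 - cos (θ - u))) := by
      calc _ ≤ Kn N (θ - u) * (π ^ 2 / 2 * (1 - cos (θ - u))) := by gcongr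
        _ = _ := by ring
    have h11 : Kn N (θ + u) * (θ - u) ^ 2 ≤ π ^ 2 / 2 * (Kn N (θ + u) * (1 - cos (θ + u))) := by
      calc _ ≤ Kn N (θ + u) * (π ^ 2 / 2 * (1 - cos (θ - u))) := by gcongr
        _ ≤ Kn N (θ + u) * (π ^ 2 / 2 * (1 - cos (θ + u))) := by gcongr
        _ = _ := by ring
    calc wt N k θ * (θ - u) ^ 2 = (Kn N (θ - u) * (θ - u) ^ 2 + Kn N (θ + u) * (θ - u) ^ 2) /
          (2 * N * SS N) := by rw [wt, ← hu']; ring
      _ ≤ (π ^ 2 / 2 * (Kn N (θ - u) * (1 - cos (θ - u))) +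
          π ^ 2 / 2 * (Kn N (θ + u) * (1 - cos (θ + u)))) / (2 * N * SS N) := by gcongr
      _ = _ := by ring
  refine (sum_le_sum key).trans ?_
  rw [← mul_sum, sum_sub_distrib, sum_Kn N hN, sum_KnCos N hN]
  have h5 : π ^ 2 / 2 / (2 * N * SS N) * (2 * N * SS N - 2 * N * (cos (π / (N + 1)) * SS N)) =
      π ^ 2 / 2 * (1 - cos (π / (N + 1))) := by
    field_simp
  rw [h5]
  have h6 := one_sub_sq_div_two_le_cos (x := π / (N + 1))
  calc π ^ 2 / 2 * (1 - cos (π / (N + 1))) ≤ π ^ 2 / 2 * ((π / (N + 1)) ^ 2 / 2) := by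
        gcongr
        linarith
    _ = _ := by
      field_simp
      ring

open Polynomial in
lemma cos_poly (m : ℤ) : ∃ p : ℝ[X], p.natDegree = m.natAbs ∧ ∀ θ : ℝ, cos (m * θ) = p.eval (cos θ) :=
  ⟨Polynomial.Chebyshev.T ℝ m, Polynomial.Chebyshev.natDegree_T (R := ℝ) m, fun θ => by simp⟩

open Polynomial in
lemma wt_poly (N k : ℕ) : ∃ p : ℝ[X], p.natDegree ≤ N - 1 ∧ ∀ θ : ℝ, wt N k θ = p.eval (cos θ) := by
  choose T hT1 hT2 using cos_poly
  refine ⟨C (1 / (2 * N * SS N)) * ∑ a ∈ range N, ∑ b ∈ range N,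
    C (al N a * al N b * (2 * cos ((((a : ℤ) - b : ℤ) : ℝ) * nd N k))) * T ((a : ℤ) - b), ?_, ?_⟩
  · refine (natDegree_C_mul_le _ _).trans ?_
    refine natDegree_sum_le_of_forall_le _ _ fun a ha => ?_
    refine natDegree_sum_le_of_forall_le _ _ fun b hb => ?_
    refine (natDegree_C_mul_le _ _).trans ?_
    rw [hT1]
    rw [mem_range] at ha hb
    omega
  · intro θ
    rw [wt, eval_mul, eval_C, eval_finsetSum]
    simp only [eval_finsetSum, eval_mul, eval_C, ← hT2]
    rw [Kn, Kn, ← sum_add_distrib, div_eq_mul_one_div, mul_comm]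
    congr 1
    refine sum_congr rfl fun a _ => ?_
    rw [← sum_add_distrib]
    refine sum_congr rfl fun b _ => ?_
    push_cast
    rw [mul_sub, mul_add, cos_sub, cos_add]
    ring

end Pool.Agent.N278.PC
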