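import Pool.Agent.N278.PC.Low

/-! The length of the boundary of a convex body in the unit disc is at most `4 π`. -/

open Finset Real MeasureTheory

namespace Pool.Agent.N278.PC

namespace Body

variable (B : Body)

lemma exists_near (z : ℂ) : ∃ p ∈ B.K, ∀ k ∈ B.K, ‖z - p‖ ≤ ‖z - k‖ := by
  obtain ⟨p, hp, hm⟩ := B.comp.exists_isMinOn B.nonempty
    (continuous_const.sub continuous_id |>.norm |>.continuousOn (s := B.K) (f := fun k : ℂ => ‖z - k‖))
  exact ⟨p, hp, fun k hk => hm hk⟩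

/-- nearest point -/
noncomputable def np (z : ℂ) : ℂ := (B.exists_near z).choose

lemma np_mem (z : ℂ) : B.np z ∈ B.K := (B.exists_near z).choose_spec.1

lemma np_le (z k : ℂ) (hk : k ∈ B.K) : ‖z - B.np z‖ ≤ ‖z - k‖ := (B.exists_near z).choose_spec.2 k hk

lemma np_inner (z k : ℂ) (hk : k ∈ B.K) : inner ℝ (z - B.np z) (k - B.np z) ≤ 0 := by
  have hne : Nonempty B.K := ⟨⟨k, hk⟩⟩
  refine (norm_eq_iInf_iff_real_inner_le_zero B.conv (B.np_mem z)).1 ?_ k hk
  apply le_antisymm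
  · exact le_ciInf fun w => B.np_le z w w.2
  · exact ciInf_le ⟨0, by rintro _ ⟨w, rfl⟩; exact norm_nonneg _⟩ (⟨B.np z, B.np_mem z⟩ : B.K)

lemma np_lip (z w : ℂ) : ‖B.np z - B.np w‖ ≤ ‖z - w‖ := by
  have h1 := B.np_inner z (B.np w) (B.np_mem w)
  have h2 := B.np_inner w (B.np z) (B.np_mem z)
  set p := B.np z
  set q := B.np w
  have h3 : ‖p - q‖ ^ 2 ≤ inner ℝ (z - w) (p - q) := by
    rw [← real_inner_self_eq_norm_sq]
    have e1 : inner ℝ (z - p) (q - p) = - inner ℝ (z - p) (p - q) := by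
      rw [← inner_neg_right, neg_sub]
    have e2 : inner ℝ (z - w) (p - q) - inner ℝ (p - q) (p - q) =
        inner ℝ (z - p) (p - q) - inner ℝ (w - q) (p - q) := by
      rw [← inner_sub_left, ← inner_sub_left]
      congr 1
      ring
    linarith
  have h4 := real_inner_le_norm (z - w) (p - q)
  by_contra h
  push Not at h
  have h5 := norm_nonneg (z - w)
  nlinarith

lemma np_support (w : ℂ) (hw : w ∈ B.K) (ψ : ℝ) (hψ : ∀ x ∈ B.K, pr ψ x ≤ pr ψ w) (t : ℝ)
    (ht : 0 ≤ t) : B.np (w + (t : ℂ) * fr ψ 1 0) = w := by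
  set z := w + (t : ℂ) * fr ψ 1 0 with hz
  set p := B.np z with hp
  have h1 := B.np_le z w hw
  rw [← hp] at h1
  have h2 : ‖z - w‖ = t := by
    rw [hz, add_sub_cancel_left, norm_mul, Complex.norm_real, Real.norm_eq_abs, abs_of_nonneg ht,
      norm_fr, abs_one, mul_one]
  have h3 := pr_sq ψ (z - p)
  have h4 := pr_sq ψ (w - p)
  have h5 : pr ψ (z - p) = t + pr ψ (w - p) := by
    rw [pr_sub, pr_sub, hz, pr_add, pr_smul, pr_fr]; ring
  have h6 : pr (ψ + π / 2) (z - p) = pr (ψ + π / 2) (w - p) := by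
    rw [pr_sub, pr_sub, hz, pr_add, pr_smul, pr_fr']; ring
  have h7 : 0 ≤ pr ψ (w - p) := by
    rw [pr_sub]
    have := hψ p (B.np_mem z)
    linarith
  rw [h2] at h1
  have h8 : ‖z - p‖ ^ 2 ≤ t ^ 2 := by
    have := norm_nonneg (z - p)
    nlinarith
  rw [← h3, h5, h6] at h8
  have h9 : ‖w - p‖ ^ 2 ≤ 0 := by
    rw [← h4]
    nlinarith [mul_nonneg ht h7]
  have h10 : ‖w - p‖ = 0 := by
    have := norm_nonneg (w - p)
    nlinarith
  exact (sub_eq_zero.1 (norm_eq_zero.1 h10)).symm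

/-- length bound -/
lemma length_le (hK : ∀ x ∈ B.K, ‖x‖ ≤ 1) :
    Measure.hausdorffMeasure 1 (frontier B.K) ≤ ENNReal.ofReal (4 * π) := by
  have hπ := pi_pos
  set g : ℝ → ℂ := fun θ => B.np (((2 : ℝ) : ℂ) * dir 1 θ) with hg
  have hlip : LipschitzWith 2 g := by
    apply LipschitzWith.of_dist_le_mul
    intro a b
    rw [dist_eq_norm, Real.dist_eq]
    refine (B.np_lip _ _).trans ?_
    rw [← mul_sub, norm_mul, Complex.norm_real, Real.norm_eq_abs]
    have := dir_sub 1 a b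
    rw [mul_one, mul_one] at this
    rw [abs_of_pos (by norm_num : (0 : ℝ) < 2)]
    have h2 : ((2 : NNReal) : ℝ) = 2 := by norm_num
    rw [h2]
    linarith
  have hsub : frontier B.K ⊆ g '' Set.Icc (-(3 * π / 2)) (π / 2) := by
    intro w hw
    have hwK : w ∈ B.K := by
      rw [B.comp.isClosed.frontier_eq] at hw
      exact hw.1
    obtain ⟨ψ, _, hψ⟩ := B.exists_angle w hw
    -- a point of the circle of radius 2 above `w`
    have hcont : Continuous fun t : ℝ => ‖w + (t : ℂ) * fr ψ 1 0‖ := by fun_prop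
    have h0 : ‖w + ((0 : ℝ) : ℂ) * fr ψ 1 0‖ ≤ 2 := by
      simp only [Complex.ofReal_zero, zero_mul, add_zero]
      linarith [hK w hwK]
    have h3 : 2 ≤ ‖w + ((3 : ℝ) : ℂ) * fr ψ 1 0‖ := by
      have e1 : ‖((3 : ℝ) : ℂ) * fr ψ 1 0‖ = 3 := by
        rw [norm_mul, Complex.norm_real, norm_fr]; norm_num
      have e2 := norm_sub_norm_le (((3 : ℝ) : ℂ) * fr ψ 1 0) (-w)
      rw [e1, norm_neg, sub_neg_eq_add, add_comm] at e2
      have := hK w hwK
      linarith
    obtain ⟨t, ht, htz⟩ := intermediate_value_Icc (by norm_num : (0 : ℝ) ≤ 3) hcont.continuousOn ⟨h0, h3⟩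
    have hnp := B.np_support w hwK ψ hψ t ht.1
    set z := w + (t : ℂ) * fr ψ 1 0 with hz
    have hzn : ‖z‖ = 2 := htz
    refine ⟨Complex.arg z - π / 2, ⟨?_, ?_⟩, ?_⟩
    · have := Complex.neg_pi_lt_arg z
      linarith
    · have := Complex.arg_le_pi z
      linarith
    · have e1 : ((2 : ℝ) : ℂ) * dir 1 (Complex.arg z - π / 2) = z := by
        rw [dir, mul_one]
        have e2 : Complex.I * ((Complex.arg z - π / 2 : ℝ) : ℂ) =
            Complex.arg z * Complex.I - (π / 2 : ℝ) * Complex.I := by push_cast; ring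
        have e3 : Complex.exp (((π / 2 : ℝ) : ℂ) * Complex.I) = Complex.I := by
          push_cast
          exact Complex.exp_pi_div_two_mul_I
        rw [e2, Complex.exp_sub, e3, mul_div_cancel₀ _ Complex.I_ne_zero, ← hzn]
        exact Complex.norm_mul_exp_arg_mul_I z
      simp only [hg]
      rw [e1, hnp]
  have hm := (hlip.lipschitzOnWith (s := Set.Icc (-(3 * π / 2)) (π / 2))).hausdorffMeasure_image_le
    (d := 1) zero_le_one
  calc Measure.hausdorffMeasure 1 (frontier B.K) ≤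
      Measure.hausdorffMeasure 1 (g '' Set.Icc (-(3 * π / 2)) (π / 2)) := measure_mono hsub
    _ ≤ _ := hm
    _ = ENNReal.ofReal (4 * π) := by
      rw [hausdorffMeasure_real, Real.volume_Icc, ENNReal.rpow_one]
      have : π / 2 - -(3 * π / 2) = 2 * π := by ring
      rw [this]
      have e2 : (((2 : NNReal)) : ENNReal) = ENNReal.ofReal 2 := by simp
      rw [e2, ← ENNReal.ofReal_mul (by norm_num)]
      congr 1
      ring

end Body

/-- interior of the regular polygon -/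
lemma RP_ball (n : ℕ) (ρ : ℝ) (hρ : 0 < ρ) : Metric.ball (0 : ℂ) (ρ / 2) ⊆ RP (4 * (n + 1)) ρ := by
  have hconv : Convex ℝ (RP (4 * (n + 1)) ρ) := convex_convexHull ℝ _
  have hang : ∀ j : ℕ, ((j * (n + 1) : ℕ) : ℝ) * (2 * (π / ((4 * (n + 1) : ℕ) : ℝ))) = j * (π / 2) := by
    intro j
    push_cast
    field_simp
    ring
  have hv : ∀ j : ℕ, j < 4 → fr (j * (π / 2)) ρ 0 ∈ RP (4 * (n + 1)) ρ := by
    intro j hj
    rw [← hang]
    apply RP_vertex
    exact Nat.mul_lt_mul_of_pos_right hj (by omega)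
  have v0 : (ρ : ℂ) ∈ RP (4 * (n + 1)) ρ := by
    have := hv 0 (by norm_num)
    have e : fr (((0 : ℕ) : ℝ) * (π / 2)) ρ 0 = (ρ : ℂ) := by
      apply Complex.ext <;> simp [fr]
    rwa [e] at this
  have v1 : (ρ : ℂ) * Complex.I ∈ RP (4 * (n + 1)) ρ := by
    have := hv 1 (by norm_num)
    have e : fr (((1 : ℕ) : ℝ) * (π / 2)) ρ 0 = (ρ : ℂ) * Complex.I := by
      apply Complex.ext <;> simp [fr]
    rwa [e] at this
  have v2 : -(ρ : ℂ) ∈ RP (4 * (n + 1)) ρ := by
    have := hv 2 (by norm_num)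
    have e : fr (((2 : ℕ) : ℝ) * (π / 2)) ρ 0 = -(ρ : ℂ) := by
      have : ((2 : ℕ) : ℝ) * (π / 2) = π := by push_cast; ring
      rw [this]
      apply Complex.ext <;> simp [fr]
    rwa [e] at this
  have v3 : -((ρ : ℂ) * Complex.I) ∈ RP (4 * (n + 1)) ρ := by
    have := hv 3 (by norm_num)
    have e : fr (((3 : ℕ) : ℝ) * (π / 2)) ρ 0 = -((ρ : ℂ) * Complex.I) := by
      have h3 : ((3 : ℕ) : ℝ) * (π / 2) = π / 2 + π := by push_cast; ring
      rw [h3]
      apply Complex.ext <;> simp [fr, cos_add_pi, sin_add_pi]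
    rwa [e] at this
  have hx : ∀ x : ℝ, |x| ≤ ρ → (x : ℂ) ∈ RP (4 * (n + 1)) ρ := by
    intro x hx
    rw [abs_le] at hx
    have := hconv v0 v2 (a := (ρ + x) / (2 * ρ)) (b := (ρ - x) / (2 * ρ))
      (div_nonneg (by linarith) (by linarith)) (div_nonneg (by linarith) (by linarith))
      (by field_simp; ring)
    convert this using 1
    have hρ' : (ρ : ℂ) ≠ 0 := by exact_mod_cast hρ.ne'
    rw [Complex.real_smul, Complex.real_smul]
    push_cast
    field_simp
    ring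
  have hy : ∀ x : ℝ, |x| ≤ ρ → (x : ℂ) * Complex.I ∈ RP (4 * (n + 1)) ρ := by
    intro x hx
    rw [abs_le] at hx
    have := hconv v1 v3 (a := (ρ + x) / (2 * ρ)) (b := (ρ - x) / (2 * ρ))
      (div_nonneg (by linarith) (by linarith)) (div_nonneg (by linarith) (by linarith))
      (by field_simp; ring)
    convert this using 1
    have hρ' : (ρ : ℂ) ≠ 0 := by exact_mod_cast hρ.ne'
    rw [Complex.real_smul, Complex.real_smul]
    push_cast
    field_simp
    ring
  intro z hz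
  rw [Metric.mem_ball, dist_zero_right] at hz
  have h1 := (Complex.abs_re_le_norm z).trans hz.le
  have h2 := (Complex.abs_im_le_norm z).trans hz.le
  have h3 := hx (2 * z.re) (by rw [abs_mul, abs_of_pos (by norm_num : (0 : ℝ) < 2)]; linarith)
  have h4 := hy (2 * z.im) (by rw [abs_mul, abs_of_pos (by norm_num : (0 : ℝ) < 2)]; linarith)
  have := hconv h3 h4 (a := 1 / 2) (b := 1 / 2) (by norm_num) (by norm_num) (by norm_num)
  convert this using 1
  conv_lhs => rw [← Complex.re_add_im z]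
  rw [Complex.real_smul, Complex.real_smul]
  push_cast
  ring

lemma RP_compact (M : ℕ) (ρ : ℝ) : IsCompact (RP M ρ) := by
  have h : Set.Finite ((fun k : ℕ => fr (k * (2 * (π / M))) ρ 0) '' (range M : Set ℕ)) :=
    (range M).finite_toSet.image _
  exact h.isCompact_convexHull ℝ

open scoped Pointwise in
lemma RP_smul (M : ℕ) (ρ : ℝ) : RP M ρ = ρ • RP M 1 := by
  rw [RP, RP, ← convexHull_smul]
  congr 1
  ext z
  simp only [Set.mem_image, Set.mem_smul_set]
  constructor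
  · rintro ⟨k, hk, rfl⟩
    refine ⟨fr (k * (2 * (π / M))) 1 0, ⟨k, hk, rfl⟩, ?_⟩
    apply Complex.ext <;> simp [fr]
  · rintro ⟨_, ⟨k, hk, rfl⟩, rfl⟩
    refine ⟨k, hk, ?_⟩
    apply Complex.ext <;> simp [fr]

open scoped Pointwise in
lemma frontier_smul_RP (M : ℕ) (ρ : ℝ) (hρ : 0 < ρ) : frontier (RP M ρ) = ρ • frontier (RP M 1) := by
  rw [RP_smul]
  exact ((Homeomorph.smulOfNeZero ρ hρ.ne').image_frontier (RP M 1)).symm

lemma RP_length (M : ℕ) (ρ : ℝ) (hρ : 0 < ρ) : Measure.hausdorffMeasure 1 (frontier (RP M ρ)) =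
    ENNReal.ofReal ρ * Measure.hausdorffMeasure 1 (frontier (RP M 1)) := by
  rw [frontier_smul_RP M ρ hρ, Measure.hausdorffMeasure_smul₀ zero_le_one hρ.ne', NNReal.rpow_one]
  rw [ENNReal.smul_def, smul_eq_mul]
  congr 1
  rw [← ENNReal.ofReal_coe_nnreal]
  simp [abs_of_pos hρ]

lemma RP_norm_le (M : ℕ) (z : ℂ) (hz : z ∈ RP M 1) : ‖z‖ ≤ 1 := by
  have : RP M 1 ⊆ Metric.closedBall (0 : ℂ) 1 := by
    apply convexHull_min _ (convex_closedBall 0 1)
    rintro _ ⟨k, _, rfl⟩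
    rw [Metric.mem_closedBall, dist_zero_right]
    rw [Body.norm_fr]
    simp
  simpa using this hz

end Pool.Agent.N278.PC
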