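import Pool.Agent.N278.PC.Up

/-! Lower bound: regular polygons are not well approximated by polynomial curves of small degree. -/

open Finset Real MeasureTheory

namespace Pool.Agent.N278.PC

/-- cosines of multiples of `π / M` -/
lemma cos_le_of_mod (M : ℕ) (hM : 0 < M) (q : ℤ) (r : ℕ) (hr : r ≤ M)
    (h1 : (r : ℤ) ≤ q % (2 * M)) (h2 : q % (2 * M) ≤ 2 * M - r) :
    cos (q * (π / M)) ≤ cos (r * (π / M)) := by
  have hM' : (0 : ℝ) < M := by exact_mod_cast hM
  have hπ := pi_pos
  set s := q % (2 * M) with hs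
  have hq : q = s + 2 * M * (q / (2 * M)) := (Int.emod_add_mul_ediv q (2 * M)).symm
  have hcos : cos (q * (π / M)) = cos (s * (π / M)) := by
    have : (q : ℝ) * (π / M) = s * (π / M) + (q / (2 * M) : ℤ) * (2 * π) := by
      have h3 : (q : ℝ) = s + 2 * M * (q / (2 * M) : ℤ) := by exact_mod_cast hq
      rw [h3]
      field_simp
    rw [this, cos_add_int_mul_two_pi]
  rw [hcos]
  have hu : 0 < π / M := by positivity
  have huM : (M : ℝ) * (π / M) = π := by field_simp
  have h1' : (r : ℝ) ≤ s := by exact_mod_cast h1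
  have h2' : (s : ℝ) ≤ 2 * M - r := by exact_mod_cast h2
  have hr' : (r : ℝ) ≤ M := by exact_mod_cast hr
  rcases le_total (s : ℝ) M with h | h
  · apply cos_le_cos_of_nonneg_of_le_pi
    · positivity
    · have := mul_le_mul_of_nonneg_right h hu.le
      linarith
    · exact mul_le_mul_of_nonneg_right h1' hu.le
  · have : cos (s * (π / M)) = cos ((2 * M - s) * (π / M)) := by
      have e : ((2 * M - s : ℝ)) * (π / M) = 2 * π - s * (π / M) := by
        rw [sub_mul, mul_assoc, huM]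
      rw [e, cos_two_pi_sub]
    rw [this]
    apply cos_le_cos_of_nonneg_of_le_pi
    · positivity
    · have := mul_le_mul_of_nonneg_right (show (2 * M - s : ℝ) ≤ M by linarith) hu.le
      linarith
    · exact mul_le_mul_of_nonneg_right (by linarith) hu.le

lemma cos_odd (M : ℕ) (hM : 2 ≤ M) (q : ℤ) (hq : q % 2 = 1) : cos (q * (π / M)) ≤ cos (π / M) := by
  have h := cos_le_of_mod M (by omega) q 1 (by omega) ?_ ?_
  · simpa using h
  · have h1 : 0 ≤ q % (2 * M) := Int.emod_nonneg _ (by omega)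
    have h2 : (q % (2 * M)) % 2 = 1 := by
      rw [Int.emod_emod_of_dvd _ (Dvd.intro _ rfl)]; exact hq
    push_cast
    omega
  · have h1 : q % (2 * M) < 2 * M := Int.emod_lt_of_pos _ (by omega)
    push_cast
    omega

lemma cos_even (M : ℕ) (hM : 3 ≤ M) (q : ℤ) (hq : ¬ ((M : ℤ) ∣ q)) :
    cos ((2 * q : ℤ) * (π / M)) ≤ cos (2 * (π / M)) := by
  have h := cos_le_of_mod M (by omega) (2 * q) 2 (by omega) ?_ ?_
  · simpa using h
  · have h1 : (2 * q) % (2 * M) = 2 * (q % M) := Int.mul_emod_mul_of_pos _ _ (by norm_num)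
    rw [h1]
    have h2 : 0 ≤ q % M := Int.emod_nonneg _ (by omega)
    have h3 : q % M ≠ 0 := fun h => hq (Int.dvd_of_emod_eq_zero h)
    push_cast
    omega
  · have h1 : (2 * q) % (2 * M) = 2 * (q % M) := Int.mul_emod_mul_of_pos _ _ (by norm_num)
    rw [h1]
    have h2 : q % M < M := Int.emod_lt_of_pos _ (by omega)
    push_cast
    omega

open Polynomial in
lemma many_roots (W : ℝ[X]) (hW : W ≠ 0) (T : Finset ℝ)
    (h : ∀ a ∈ T, ∀ b ∈ T, a < b → ∃ z, a < z ∧ z < b ∧ W.eval z = 0) :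
    T.card ≤ W.natDegree + 1 := by
  have key : ∃ Z : Finset ℝ, (∀ z ∈ Z, W.eval z = 0) ∧ (∀ z ∈ Z, ∃ b ∈ T, z < b) ∧
      T.card ≤ Z.card + 1 := by
    induction T using Finset.induction_on_max with
    | empty => exact ⟨∅, by simp, by simp, by simp⟩
    | insert a T hmax ih =>
      obtain ⟨Z, hZ1, hZ2, hZ3⟩ := ih fun x hx y hy => h x (mem_insert_of_mem hx) y (mem_insert_of_mem hy)
      have haT : a ∉ T := fun ha => lt_irrefl _ (hmax a ha)
      rcases T.eq_empty_or_nonempty with hT | hT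
      · subst hT
        exact ⟨∅, by simp, by simp, by simp⟩
      · have hb := T.max'_mem hT
        obtain ⟨z, hz1, hz2, hz3⟩ := h (T.max' hT) (mem_insert_of_mem hb) a (mem_insert_self _ _)
          (hmax _ hb)
        have hzZ : z ∉ Z := by
          intro hz
          obtain ⟨b, hb, hzb⟩ := hZ2 z hz
          have := T.le_max' b hb
          linarith
        refine ⟨insert z Z, ?_, ?_, ?_⟩
        · intro y hy
          rcases mem_insert.1 hy with rfl | hy
          · exact hz3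
          · exact hZ1 y hy
        · intro y hy
          rcases mem_insert.1 hy with rfl | hy
          · exact ⟨a, mem_insert_self _ _, hz2⟩
          · obtain ⟨b, hb, hyb⟩ := hZ2 y hy
            exact ⟨b, mem_insert_of_mem hb, hyb⟩
        · rw [card_insert_of_notMem haT, card_insert_of_notMem hzZ]
          omega
  obtain ⟨Z, hZ1, -, hZ3⟩ := key
  have hsub : Z ⊆ W.roots.toFinset := by
    intro z hz
    rw [Multiset.mem_toFinset, mem_roots hW]
    exact hZ1 z hz
  have h1 := card_le_card hsub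
  have h2 := Multiset.toFinset_card_le W.roots
  have h3 := W.card_roots'
  omega

/-- the regular polygon with circumradius `ρ` -/
noncomputable def RP (M : ℕ) (ρ : ℝ) : Set ℂ :=
  convexHull ℝ ((fun k : ℕ => fr (k * (2 * (π / M))) ρ 0) '' (range M : Set ℕ))

lemma pr_fr_ang (ψ η ρ : ℝ) : pr ψ (fr η ρ 0) = ρ * cos (ψ - η) := by
  rw [cos_sub]
  simp only [pr, fr]
  ring

lemma RP_pr_le (M : ℕ) (ρ : ℝ) (ψ c : ℝ) (h : ∀ k : ℕ, k < M → ρ * cos (ψ - k * (2 * (π / M))) ≤ c)
    (w : ℂ) (hw : w ∈ RP M ρ) : pr ψ w ≤ c := by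
  have hconv : Convex ℝ {z : ℂ | pr ψ z ≤ c} := by
    intro x hx y hy a b ha hb hab
    simp only [Set.mem_ofPred_eq] at hx hy ⊢
    rw [Complex.real_smul, Complex.real_smul, pr_add, pr_smul, pr_smul]
    calc _ ≤ a * c + b * c := add_le_add (mul_le_mul_of_nonneg_left hx ha) (mul_le_mul_of_nonneg_left hy hb)
      _ = c := by rw [← add_mul, hab, one_mul]
  refine convexHull_min ?_ hconv hw
  rintro _ ⟨k, hk, rfl⟩
  simp only [Set.mem_ofPred_eq]
  rw [pr_fr_ang]
  exact h k (by simpa using hk)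

lemma RP_vertex (M : ℕ) (ρ : ℝ) (k : ℕ) (hk : k < M) : fr (k * (2 * (π / M))) ρ 0 ∈ RP M ρ :=
  subset_convexHull ℝ _ ⟨k, by simpa using hk, rfl⟩

lemma not_interior (K : Set ℂ) (x : ℂ) (ψ : ℝ) (h : ∀ y ∈ K, pr ψ y ≤ pr ψ x) : x ∉ interior K := by
  intro hzi
  rw [mem_interior_iff_mem_nhds, Metric.mem_nhds_iff] at hzi
  obtain ⟨ε, hε, hball⟩ := hzi
  have h3 : x + ((ε / 2 : ℝ) : ℂ) * fr ψ 1 0 ∈ K := by
    apply hball
    rw [Metric.mem_ball, dist_eq_norm, add_sub_cancel_left, norm_mul, Complex.norm_real,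
      Real.norm_eq_abs, abs_of_pos (by linarith), Body.norm_fr, abs_one, mul_one]
    linarith
  have h6 := h _ h3
  rw [pr_add, pr_smul, pr_fr] at h6
  linarith

lemma RP_frontier (M : ℕ) (ρ : ℝ) (hρ : 0 ≤ ρ) (k : ℕ) (hk : k < M) :
    fr (k * (2 * (π / M))) ρ 0 ∈ frontier (RP M ρ) := by
  refine ⟨subset_closure (RP_vertex M ρ k hk), ?_⟩
  apply not_interior _ _ (k * (2 * (π / M)))
  intro y hy
  rw [pr_fr]
  refine RP_pr_le M ρ _ ρ (fun j _ => ?_) y hy
  have := cos_le_one ((k : ℝ) * (2 * (π / M)) - j * (2 * (π / M)))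
  nlinarith

lemma num1 (c s η ρ : ℝ) (hs0 : 0 < s) (hc0 : 0 < c) (hc1 : c ≤ 1) (hs1 : s ≤ 1)
    (h1cs : 1 - c ≤ s) (hρ : 0 < ρ) (hcon : 2 * η < ρ * (1 - c)) : η * (c + s) < ρ * s := by
  have a1 : 2 * η * (c + s) < ρ * (1 - c) * (c + s) := mul_lt_mul_of_pos_right hcon (by linarith)
  have a3 : (1 - c) * (c + s) ≤ s * 2 := mul_le_mul h1cs (by linarith) (by linarith) hs0.le
  have a4 := mul_le_mul_of_nonneg_left a3 hρ.le
  linarith

lemma num2 (a B c s N : ℝ) (hcs : s ^ 2 + c ^ 2 = 1) (h : B * c - a * s = 0) (hN : N ^ 2 = a ^ 2 + B ^ 2)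
    (h0 : 0 ≤ a * c + B * s) : N ≤ a * c + B * s := by
  apply le_of_sq_le_sq _ h0
  rw [hN]
  apply le_of_eq
  linear_combination -(a ^ 2 + B ^ 2) * hcs + (B * c - a * s) * h

/-- main lower bound -/
theorem lower (n M : ℕ) (hM : 2 * n + 2 ≤ M) (hM3 : 3 ≤ M) (ρ η : ℝ) (hρ : 0 < ρ) (hη : 0 ≤ η)
    (P Q : Polynomial ℝ) (hP : P.natDegree ≤ n) (hQ : Q.natDegree ≤ n)
    (h1 : ∀ w ∈ frontier (RP M ρ), ∃ τ ∈ Set.Icc (0 : ℝ) 1,
      ‖((P.eval τ : ℝ) : ℂ) + ((Q.eval τ : ℝ) : ℂ) * Complex.I - w‖ ≤ η)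
    (h2 : ∀ τ ∈ Set.Icc (0 : ℝ) 1, ∃ w ∈ RP M ρ,
      ‖((P.eval τ : ℝ) : ℂ) + ((Q.eval τ : ℝ) : ℂ) * Complex.I - w‖ ≤ η) :
    ρ * (1 - cos (π / M)) ≤ 2 * η := by
  by_contra hcon
  push Not at hcon
  have hπ := pi_pos
  have hM0 : (0 : ℝ) < M := by
    have : 0 < M := by omega
    exact_mod_cast this
  have hM3' : (3 : ℝ) ≤ M := by exact_mod_cast hM3
  set u := π / M with hu
  have hu0 : 0 < u := by positivity
  have huM : (M : ℝ) * u = π := by rw [hu]; field_simp
  have hu3 : u ≤ π / 3 := by rw [hu]; gcongr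
  set c := cos u with hc
  set s := sin u with hs
  have hs0 : 0 < s := sin_pos_of_pos_of_lt_pi hu0 (by linarith)
  have hc0 : 0 < c := cos_pos_of_mem_Ioo ⟨by linarith, by linarith⟩
  have hc1 : c ≤ 1 := cos_le_one _
  have hcs : s ^ 2 + c ^ 2 = 1 := sin_sq_add_cos_sq _
  have hs1 : s ≤ 1 := sin_le_one _
  have h1cs : 1 - c ≤ s := by nlinarith
  set γ : ℝ → ℂ := fun τ => ((P.eval τ : ℝ) : ℂ) + ((Q.eval τ : ℝ) : ℂ) * Complex.I with hγ
  have hγc : Continuous γ := by
    rw [hγ]
    have hPc := P.continuous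
    have hQc := Q.continuous
    exact (Complex.continuous_ofReal.comp hPc).add ((Complex.continuous_ofReal.comp hQc).mul continuous_const)
  -- parameters of the vertices
  have hex : ∀ k : ℕ, ∃ τ : ℝ, k < M → (τ ∈ Set.Icc (0 : ℝ) 1 ∧ ‖γ τ - fr (k * (2 * u)) ρ 0‖ ≤ η) := by
    intro k
    by_cases hk : k < M
    · obtain ⟨τ, hτ, hd⟩ := h1 _ (RP_frontier M ρ hρ.le k hk)
      exact ⟨τ, fun _ => ⟨hτ, hd⟩⟩
    · exact ⟨0, fun h => absurd h hk⟩
  choose t ht using hex
  -- norm at the vertices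
  have hnv : ∀ k, k < M → ρ * (1 + c) / 2 < ‖γ (t k)‖ := by
    intro k hk
    have e1 := (ht k hk).2
    have e2 : ‖fr (k * (2 * u)) ρ 0‖ = ρ := by rw [Body.norm_fr, abs_of_pos hρ]
    have e3 : ‖fr (k * (2 * u)) ρ 0‖ ≤ ‖γ (t k)‖ + ‖γ (t k) - fr (k * (2 * u)) ρ 0‖ := by
      have := norm_sub_norm_le (fr (k * (2 * u)) ρ 0) (γ (t k))
      rw [norm_sub_rev] at this
      linarith
    rw [e2] at e3
    nlinarith
  -- crossing
  have hF : ∀ k : ℕ, k < M → ∀ l : ℕ, l < M → k ≠ l →
      (|pr (k * (2 * u) + π / 2) (γ (t k))| * c - pr (k * (2 * u)) (γ (t k)) * s < 0) ∧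
      (0 < |pr (k * (2 * u) + π / 2) (γ (t l))| * c - pr (k * (2 * u)) (γ (t l)) * s) := by
    intro k hk l hl hkl
    set α := (k : ℝ) * (2 * u) with hα
    constructor
    · have e1 := (ht k hk).2
      have e2 : |pr (α + π / 2) (γ (t k))| ≤ η := by
        have := pr_abs (α + π / 2) (γ (t k) - fr α ρ 0)
        rw [pr_sub, pr_fr', sub_zero] at this
        exact this.trans e1
      have e3 : ρ - η ≤ pr α (γ (t k)) := by
        have := pr_abs α (γ (t k) - fr α ρ 0)
        rw [pr_sub, pr_fr] at this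
        have := neg_le_of_abs_le (this.trans e1)
        linarith
      have e4 : |pr (α + π / 2) (γ (t k))| * c ≤ η * c := by gcongr
      have e5 : (ρ - η) * s ≤ pr α (γ (t k)) * s := by gcongr
      have e6 := num1 c s η ρ hs0 hc0 hc1 hs1 h1cs hρ hcon
      linarith
    · have e1 := (ht l hl).2
      set β := (l : ℝ) * (2 * u) with hβ
      have e2 : |sin (β - α)| * ρ - η ≤ |pr (α + π / 2) (γ (t l))| := by
        have a1 := pr_abs (α + π / 2) (γ (t l) - fr β ρ 0)
        have a2 : pr (α + π / 2) (fr β ρ 0) = ρ * sin (β - α) := by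
          rw [pr_fr_ang]
          congr 1
          have : α + π / 2 - β = π / 2 - (β - α) := by ring
          rw [this, cos_pi_div_two_sub]
        rw [pr_sub, a2] at a1
        have a3 : |ρ * sin (β - α)| ≤ |pr (α + π / 2) (γ (t l))| +
            |pr (α + π / 2) (γ (t l)) - ρ * sin (β - α)| := by
          have := abs_sub_abs_le_abs_sub (ρ * sin (β - α)) (pr (α + π / 2) (γ (t l)))
          rw [abs_sub_comm] at this
          linarith
        rw [abs_mul, abs_of_pos hρ] at a3
        linarith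
      have e3 : pr α (γ (t l)) ≤ ρ * cos (β - α) + η := by
        have a1 := pr_abs α (γ (t l) - fr β ρ 0)
        rw [pr_sub, pr_fr_ang] at a1
        have a2 := le_of_abs_le (a1.trans e1)
        have a3 : cos (α - β) = cos (β - α) := by rw [← cos_neg, neg_sub]
        rw [a3] at a2
        linarith
      have e4 : cos (β - α) ≤ c ^ 2 - s ^ 2 := by
        have a1 : β - α = ((2 * ((l : ℤ) - k) : ℤ) : ℝ) * (π / M) := by
          rw [hα, hβ, ← hu]; push_cast; ring
        rw [a1]
        have a2 := cos_even M hM3 ((l : ℤ) - k) (by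
          intro hd
          obtain ⟨x, hx⟩ := hd
          have hx0 : x = 0 := by
            by_contra hx0
            have b1 : 1 ≤ |x| := Int.one_le_abs hx0
            have b2 : (M : ℤ) ≤ |(l : ℤ) - k| := by
              rw [hx, abs_mul]
              have : |(M : ℤ)| = M := abs_of_nonneg (by positivity)
              rw [this]
              nlinarith [(by positivity : (0 : ℤ) ≤ M)]
            have b3 : |(l : ℤ) - k| < M := by rw [abs_lt]; constructor <;> omega
            omega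
          rw [hx0, mul_zero] at hx
          omega)
        refine a2.trans ?_
        rw [← hu, cos_two_mul, ← hc]
        nlinarith
      set x := cos (β - α) with hx
      have hx1 : -1 ≤ x := neg_one_le_cos _
      have e5 : s * (1 + x) ≤ |sin (β - α)| * c := by
        apply le_of_sq_le_sq _ (by positivity)
        rw [mul_pow, mul_pow, sq_abs, sin_sq (β - α), ← hx]
        have : 0 ≤ (1 + x) * (c ^ 2 - s ^ 2 - x) := mul_nonneg (by linarith) (by linarith)
        nlinarith
      have e6 : (|sin (β - α)| * ρ - η) * c ≤ |pr (α + π / 2) (γ (t l))| * c := by gcongr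
      have e7 : pr α (γ (t l)) * s ≤ (ρ * x + η) * s := by gcongr
      have e8 := num1 c s η ρ hs0 hc0 hc1 hs1 h1cs hρ hcon
      have e9 : ρ * (s * (1 + x)) ≤ ρ * (|sin (β - α)| * c) := by gcongr
      linarith
  -- small norm at a crossing
  have hcross : ∀ k : ℕ, k < M → ∀ τ ∈ Set.Icc (0 : ℝ) 1,
      |pr (k * (2 * u) + π / 2) (γ τ)| * c - pr (k * (2 * u)) (γ τ) * s = 0 →
      ‖γ τ‖ < ρ * (1 + c) / 2 := by
    intro k hk τ hτ hz
    set α := (k : ℝ) * (2 * u) with hα
    set a := pr α (γ τ) with ha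
    set b := pr (α + π / 2) (γ τ) with hb
    have ha0 : 0 ≤ a := by
      have : 0 ≤ a * s := by
        have := mul_nonneg (abs_nonneg b) hc0.le
        linarith
      exact nonneg_of_mul_nonneg_left this hs0
    obtain ⟨w, hw, hd⟩ := h2 τ hτ
    -- the direction
    obtain ⟨σ, hσ, hσb⟩ : ∃ σ : ℤ, (σ = 1 ∨ σ = -1) ∧ b * σ = |b| := by
      rcases le_total 0 b with h | h
      · exact ⟨1, Or.inl rfl, by rw [abs_of_nonneg h]; simp⟩
      · exact ⟨-1, Or.inr rfl, by rw [abs_of_nonpos h]; simp⟩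
    have hσ2 : ((σ : ℤ) : ℝ) ^ 2 = 1 := by rcases hσ with h | h <;> simp [h]
    have e1 : pr (α + σ * u) (γ τ) = a * c + |b| * s := by
      rw [pr_gen, ← ha, ← hb]
      have c1 : cos (σ * u) = c := by rcases hσ with h | h <;> simp [h, hc]
      have c2 : sin (σ * u) = σ * s := by rcases hσ with h | h <;> simp [h, hs]
      rw [c1, c2, ← hσb]
      ring
    have e2 : ‖γ τ‖ ^ 2 = a ^ 2 + b ^ 2 := (pr_sq α (γ τ)).symm
    have e3 : ‖γ τ‖ ≤ a * c + |b| * s :=
      num2 a |b| c s _ hcs hz (by rw [e2, sq_abs]) (by positivity)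
    have e4 : pr (α + σ * u) w ≤ ρ * c := by
      apply RP_pr_le M ρ _ _ _ w hw
      intro j _
      have h3 : α + σ * u - j * (2 * (π / M)) = ((2 * ((k : ℤ) - j) + σ : ℤ) : ℝ) * (π / M) := by
        rw [hα, ← hu]; push_cast; ring
      rw [h3]
      have h4 := cos_odd M (by omega) (2 * ((k : ℤ) - j) + σ) (by rcases hσ with h | h <;> omega)
      rw [← hu] at h4 ⊢
      exact mul_le_mul_of_nonneg_left h4 hρ.le
    have e5 : pr (α + σ * u) (γ τ) ≤ ρ * c + η := by
      have a1 := pr_abs (α + σ * u) (γ τ - w)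
      rw [pr_sub] at a1
      have a2 := le_of_abs_le (a1.trans hd)
      linarith
    rw [e1] at e5
    linarith
  -- the polynomial
  set r := ρ * (1 + c) / 2 with hr
  have hr0 : 0 < r := by positivity
  set W : Polynomial ℝ := P ^ 2 + Q ^ 2 - Polynomial.C (r ^ 2) with hWdef
  have hWe : ∀ τ, W.eval τ = ‖γ τ‖ ^ 2 - r ^ 2 := by
    intro τ
    rw [norm_sq_eq]
    simp [hWdef, hγ]
  have hWpos : ∀ k, k < M → 0 < W.eval (t k) := by
    intro k hk
    rw [hWe]
    have := hnv k hk
    nlinarith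
  have hW0 : W ≠ 0 := by
    intro h
    have := hWpos 0 (by omega)
    rw [h, Polynomial.eval_zero] at this
    exact lt_irrefl _ this
  have hWdeg : W.natDegree ≤ 2 * n := by
    rw [hWdef]
    refine (Polynomial.natDegree_sub_le _ _).trans ?_
    rw [Polynomial.natDegree_C, max_le_iff]
    refine ⟨?_, by omega⟩
    refine (Polynomial.natDegree_add_le _ _).trans ?_
    rw [max_le_iff]
    constructor
    · refine Polynomial.natDegree_pow_le.trans ?_
      omega
    · refine Polynomial.natDegree_pow_le.trans ?_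
      omega
  -- distinctness and zeros between
  have hzero : ∀ k, k < M → ∀ l, l < M → t k < t l → ∃ z, t k < z ∧ z < t l ∧ W.eval z = 0 := by
    intro k hk l hl hkl
    have hne : k ≠ l := by rintro rfl; exact lt_irrefl _ hkl
    obtain ⟨f1, f2⟩ := hF k hk l hl hne
    have hFc : Continuous fun τ => |pr (k * (2 * u) + π / 2) (γ τ)| * c - pr (k * (2 * u)) (γ τ) * s := by
      have p1 := (pr_cont (k * (2 * u) + π / 2)).comp hγc
      have p2 := (pr_cont (k * (2 * u))).comp hγc
      exact (p1.abs.mul continuous_const).sub (p2.mul continuous_const)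
    obtain ⟨τ, hτ, hτz⟩ := intermediate_value_Icc hkl.le hFc.continuousOn ⟨f1.le, f2.le⟩
    have hτ01 : τ ∈ Set.Icc (0 : ℝ) 1 := ⟨(ht k hk).1.1.trans hτ.1, hτ.2.trans (ht l hl).1.2⟩
    have hn := hcross k hk τ hτ01 hτz
    have hWneg : W.eval τ < 0 := by
      rw [hWe]
      have := norm_nonneg (γ τ)
      nlinarith
    have hWc : Continuous fun x => W.eval x := W.continuous
    have hτ1 : t k < τ := by
      rcases eq_or_lt_of_le hτ.1 with h | h
      · rw [← h] at hWneg
        have := hWpos k hk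
        linarith
      · exact h
    obtain ⟨z, hz, hz0⟩ := intermediate_value_Icc' hτ1.le hWc.continuousOn
      ⟨hWneg.le, (hWpos k hk).le⟩
    refine ⟨z, ?_, ?_, hz0⟩
    · rcases eq_or_lt_of_le hz.1 with h | h
      · have := hWpos k hk
        have hz0' : W.eval z = 0 := hz0
        rw [← h] at hz0'
        linarith
      · exact h
    · rcases eq_or_lt_of_le (hz.2.trans hτ.2) with h | h
      · have := hWpos l hl
        have hz0' : W.eval z = 0 := hz0
        rw [h] at hz0'
        linarith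
      · exact h
  have hinj : Set.InjOn t (range M : Set ℕ) := by
    intro k hk l hl hkl
    by_contra hne
    have hk' : k < M := by simpa using hk
    have hl' : l < M := by simpa using hl
    obtain ⟨f1, f2⟩ := hF k hk' l hl' hne
    rw [hkl] at f1
    linarith
  have hcard : ((range M).image t).card = M := by
    rw [card_image_of_injOn hinj, card_range]
  have := many_roots W hW0 ((range M).image t) (by
    intro a ha b hb hab
    obtain ⟨k, hk, rfl⟩ := mem_image.1 ha
    obtain ⟨l, hl, rfl⟩ := mem_image.1 hb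
    exact hzero k (mem_range.1 hk) l (mem_range.1 hl) hab)
  omega

end Pool.Agent.N278.PC
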