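import Pool.Agent.N278.PC.Geo

/-! Upper bound: approximation of the boundary of a plane convex body by a polynomial curve. -/

open Finset Real MeasureTheory

namespace Pool.Agent.N278.PC

namespace Body

variable (B : Body)

lemma norm_fr (ψ a : ℝ) : ‖fr ψ a 0‖ = |a| := by
  have h4 := pr_sq ψ (fr ψ a 0)
  rw [pr_fr, pr_fr'] at h4
  have : ‖fr ψ a 0‖ ^ 2 = |a| ^ 2 := by rw [← h4, sq_abs]; ring
  exact (sq_eq_sq₀ (norm_nonneg _) (abs_nonneg _)).1 this

lemma near_chain (m : ℕ) (hm : 5 ≤ m) (w : ℂ) (hw : w ∈ frontier B.K) :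
    ∃ x ∈ Set.Icc (0 : ℝ) m,
      ‖XC m (fun i => B.L (2 * π / m) (i * (2 * π / m))) (2 * π / m)
        (fr 0 (B.H 0) (B.ym (2 * π / m) 0)) x - w‖ ≤ B.D * (2 * π / m) := by
  have hπ := pi_pos
  have hm0 : (0 : ℝ) < m := by
    have : 0 < m := by omega
    exact_mod_cast this
  set Δ := 2 * π / m with hΔdef
  have hΔ : 0 < Δ := by positivity
  have hmΔ : m * Δ = 2 * π := by rw [hΔdef]; field_simp
  have hm5 : (5 : ℝ) ≤ m := by exact_mod_cast hm
  have hΔ2 : Δ < π / 2 := by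
    rw [hΔdef, div_lt_iff₀ hm0]
    nlinarith
  have hs : 0 < sin Δ := sin_pos_of_pos_of_lt_pi hΔ (by linarith)
  have hwK : w ∈ B.K := by
    rw [B.comp.isClosed.frontier_eq] at hw
    exact hw.1
  obtain ⟨ψ, ⟨hψ0, hψ1⟩, hψ⟩ := B.exists_angle w hw
  set j := ⌊ψ / Δ⌋₊ with hj
  have hj1 : (j : ℝ) * Δ ≤ ψ := by
    have := Nat.floor_le (div_nonneg hψ0 hΔ.le)
    rwa [← hj, le_div_iff₀ hΔ] at this
  have hj2 : ψ < (j + 1) * Δ := by
    have := Nat.lt_floor_add_one (ψ / Δ)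
    rwa [← hj, div_lt_iff₀ hΔ] at this
  have hjm : j < m := by
    have h1 : (j : ℝ) * Δ < m * Δ := by rw [hmΔ]; linarith
    have h2 : (j : ℝ) < m := lt_of_mul_lt_mul_right h1 hΔ.le
    exact_mod_cast h2
  set ξ := B.H (j * Δ) - pr (j * Δ) w with hξ
  have hξ0 : 0 ≤ ξ := sub_nonneg.2 (B.le_H _ _ hwK)
  have hξ1 : ξ ≤ B.D * Δ := by
    have hvK := B.v_mem (j * Δ)
    have e1 := pr_abs_sub (j * Δ) ψ (B.v (j * Δ) - w)
    have e2 : pr ψ (B.v (j * Δ) - w) ≤ 0 := by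
      rw [pr_sub]
      have := hψ _ hvK
      linarith
    have e3 : |j * Δ - ψ| ≤ Δ := by
      rw [abs_le]
      constructor <;> linarith
    have e4 := le_of_abs_le e1
    have e5 : ‖B.v (j * Δ) - w‖ * |j * Δ - ψ| ≤ B.D * Δ := by
      have h1 := B.hD _ hvK _ hwK
      exact mul_le_mul h1 e3 (abs_nonneg _) ((norm_nonneg _).trans h1)
    rw [pr_sub (j * Δ)] at e4
    have e6 : pr (j * Δ) (B.v (j * Δ)) = B.H (j * Δ) := rfl
    linarith
  have hne : (range m).Nonempty := ⟨j, mem_range.2 hjm⟩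
  set G : ℝ → ℝ := fun t => (range m).inf' hne
    (fun i : ℕ => B.H (i * Δ) - pr (i * Δ) (w + ((t : ℝ) : ℂ) * fr (j * Δ) 1 0)) with hG
  have hGc : Continuous G := by
    rw [hG]
    refine Continuous.finset_inf'_apply hne fun i _ => ?_
    refine continuous_const.sub ((pr_cont _).comp ?_)
    fun_prop
  have hG0 : 0 ≤ G 0 := by
    simp only [hG]
    rw [Finset.le_inf'_iff]
    intro i _
    have := B.le_H (i * Δ) w hwK
    simp only [Complex.ofReal_zero, zero_mul, add_zero]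
    linarith
  have hGξ : G ξ ≤ 0 := by
    simp only [hG]
    refine (Finset.inf'_le _ (mem_range.2 hjm)).trans ?_
    rw [pr_add, pr_smul, pr_fr]
    linarith
  obtain ⟨t, ⟨ht0, ht1⟩, ht⟩ : ∃ t ∈ Set.Icc 0 ξ, G t = 0 := by
    have := intermediate_value_Icc' hξ0 hGc.continuousOn
    exact this ⟨hGξ, hG0⟩
  set y := w + ((t : ℝ) : ℂ) * fr (j * Δ) 1 0 with hy
  obtain ⟨i, him, hi⟩ := Finset.exists_mem_eq_inf' hne
    (fun i : ℕ => B.H (i * Δ) - pr (i * Δ) (w + ((t : ℝ) : ℂ) * fr (j * Δ) 1 0))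
  have hi0 : pr (i * Δ) y = B.H (i * Δ) := by
    have : G t = B.H (i * Δ) - pr (i * Δ) y := hi
    linarith
  have hall : ∀ k : ℕ, k < m → pr (k * Δ) y ≤ B.H (k * Δ) := by
    intro k hk
    have h1 : G t ≤ B.H (k * Δ) - pr (k * Δ) y := Finset.inf'_le _ (mem_range.2 hk)
    linarith
  rw [mem_range] at him
  have hnext : pr (i * Δ + Δ) y ≤ B.H (i * Δ + Δ) := by
    by_cases h : i + 1 < m
    · have := hall (i + 1) h
      push_cast at this
      rwa [add_mul, one_mul] at this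
    · have h2 : (i : ℝ) + 1 = m := by
        have : i + 1 = m := by omega
        exact_mod_cast this
      have h3 : (i : ℝ) * Δ + Δ = 0 + 2 * π := by
        rw [← hmΔ, ← h2]; ring
      rw [h3, pr_two_pi, B.H_per]
      have := hall 0 (by omega)
      simpa using this
  have hprev : pr (i * Δ - Δ) y ≤ B.H (i * Δ - Δ) := by
    by_cases h : 1 ≤ i
    · have := hall (i - 1) (by omega)
      have h2 : (((i - 1 : ℕ) : ℝ)) = i - 1 := by
        rw [Nat.cast_sub h]; simp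
      rw [h2, sub_mul, one_mul] at this
      exact this
    · have h2 : i = 0 := by omega
      have h3 := hall (m - 1) (by omega)
      have h4 : (((m - 1 : ℕ) : ℝ)) = m - 1 := by
        rw [Nat.cast_sub (by omega)]; simp
      rw [h4, sub_mul, one_mul, hmΔ] at h3
      have h5 : 2 * π - Δ = (i * Δ - Δ) + 2 * π := by rw [h2]; push_cast; ring
      rw [h5, pr_two_pi, B.H_per] at h3
      exact h3
  set c := pr (i * Δ + π / 2) y with hc
  have hc1 : c ≤ B.yp Δ (i * Δ) := by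
    rw [yp, le_div_iff₀ hs]
    rw [pr_gen, hi0] at hnext
    linarith
  have hc2 : B.ym Δ (i * Δ) ≤ c := by
    rw [ym, div_le_iff₀ hs]
    rw [sub_eq_add_neg, pr_gen, hi0, cos_neg, sin_neg, ← sub_eq_add_neg] at hprev
    linarith
  have hyfr : y = fr (i * Δ) (B.H (i * Δ)) c := by
    rw [← hi0]
    exact fr_pr _ _
  have hdist : ‖y - w‖ ≤ B.D * Δ := by
    rw [hy, add_sub_cancel_left, norm_mul, norm_fr, Complex.norm_real, Real.norm_eq_abs,
      abs_of_nonneg ht0, abs_one, mul_one]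
    linarith
  have hL := B.L_nonneg Δ (i * Δ) hs
  have him' : (i : ℝ) + 1 ≤ m := by exact_mod_cast him
  rcases eq_or_lt_of_le hL with hL0 | hLpos
  · refine ⟨i, ⟨by positivity, by linarith⟩, ?_⟩
    rw [B.chain_val Δ hs m i him i le_rfl (by linarith)]
    have : B.ym Δ (i * Δ) + ((i : ℝ) - i) * B.L Δ (i * Δ) = c := by
      have h5 : B.L Δ (i * Δ) = B.yp Δ (i * Δ) - B.ym Δ (i * Δ) := rfl
      rw [sub_self, zero_mul, add_zero]
      linarith
    rw [this, ← hyfr]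
    exact hdist
  · set x := i + (c - B.ym Δ (i * Δ)) / B.L Δ (i * Δ) with hx
    have hx0 : (i : ℝ) ≤ x := by
      have := div_nonneg (sub_nonneg.2 hc2) hL
      linarith
    have hx1 : x ≤ i + 1 := by
      have : (c - B.ym Δ (i * Δ)) / B.L Δ (i * Δ) ≤ 1 := by
        rw [div_le_one hLpos, L]
        linarith
      linarith
    refine ⟨x, ⟨by linarith [(by positivity : (0 : ℝ) ≤ i)], by linarith⟩, ?_⟩
    rw [B.chain_val Δ hs m i him x hx0 hx1]
    have : B.ym Δ (i * Δ) + (x - i) * B.L Δ (i * Δ) = c := by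
      rw [hx]
      field_simp
      ring
    rw [this, ← hyfr]
    exact hdist

/-- total length -/
lemma total_length (m : ℕ) (hm : 5 ≤ m) :
    ∑ i ∈ range m, B.L (2 * π / m) (i * (2 * π / m)) ≤ π ^ 2 * B.D := by
  have hπ := pi_pos
  have hm0 : (0 : ℝ) < m := by
    have : 0 < m := by omega
    exact_mod_cast this
  set Δ := 2 * π / m with hΔdef
  have hΔ : 0 < Δ := by positivity
  have hmΔ : m * Δ = 2 * π := by rw [hΔdef]; field_simp
  have hm5 : (5 : ℝ) ≤ m := by exact_mod_cast hm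
  have hΔ2 : Δ < π / 2 := by
    rw [hΔdef, div_lt_iff₀ hm0]
    nlinarith
  have hs : 0 < sin Δ := sin_pos_of_pos_of_lt_pi hΔ (by linarith)
  obtain ⟨z0, hz0⟩ := B.nonempty
  set h : ℝ → ℝ := fun x => B.H (x * Δ) - pr (x * Δ) z0 with hh
  have hD0 : 0 ≤ B.D := (norm_nonneg _).trans (B.hD z0 hz0 z0 hz0)
  have hhD : ∀ x, h x ≤ B.D := by
    intro x
    simp only [hh]
    have h1 : B.H (x * Δ) - pr (x * Δ) z0 = pr (x * Δ) (B.v (x * Δ) - z0) := by rw [pr_sub]; rfl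
    rw [h1]
    exact (le_of_abs_le (pr_abs _ _)).trans (B.hD _ (B.v_mem _) _ hz0)
  have hper : ∀ x, h (x + m) = h x := by
    intro x
    simp only [hh]
    rw [add_mul, hmΔ, B.H_per, pr_two_pi]
  have hLh : ∀ i : ℕ, B.L Δ (i * Δ) = (h (i + 1) + h (i - 1) - 2 * cos Δ * h i) / sin Δ := by
    intro i
    simp only [hh]
    have e1 : ((i : ℝ) + 1) * Δ = i * Δ + Δ := by ring
    have e2 : ((i : ℝ) - 1) * Δ = i * Δ - Δ := by ring
    rw [e1, e2, L, yp, ym]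
    have e3 : pr (i * Δ + Δ) z0 + pr (i * Δ - Δ) z0 = 2 * cos Δ * pr (i * Δ) z0 := by
      rw [sub_eq_add_neg, pr_gen _ Δ, pr_gen _ (-Δ), cos_neg, sin_neg]
      ring
    rw [← sub_div]
    congr 1
    linear_combination e3
  have hsum1 : ∑ i ∈ range m, h ((i : ℝ) + 1) = ∑ i ∈ range m, h (i : ℝ) := by
    have h1 := Finset.sum_range_succ (fun i : ℕ => h (i : ℝ)) m
    have h2 := Finset.sum_range_succ' (fun i : ℕ => h (i : ℝ)) m
    have h3 : h (m : ℝ) = h 0 := by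
      have := hper 0
      rwa [zero_add] at this
    simp only [Nat.cast_add, Nat.cast_one, Nat.cast_zero] at h2
    rw [h1, h3] at h2
    linarith
  have hsum2 : ∑ i ∈ range m, h ((i : ℝ) - 1) = ∑ i ∈ range m, h (i : ℝ) := by
    have h1 := Finset.sum_range_succ (fun i : ℕ => h ((i : ℝ) - 1)) m
    have h2 := Finset.sum_range_succ' (fun i : ℕ => h ((i : ℝ) - 1)) m
    have h3 : h ((m : ℝ) - 1) = h (0 - 1) := by
      have := hper (-1)
      rw [zero_sub, ← this]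
      congr 1; ring
    simp only [Nat.cast_add, Nat.cast_one, Nat.cast_zero, add_sub_cancel_right] at h2
    rw [h1, h3] at h2
    linarith
  have htot : ∑ i ∈ range m, B.L Δ (i * Δ) = 2 * (1 - cos Δ) / sin Δ * ∑ i ∈ range m, h (i : ℝ) := by
    rw [sum_congr rfl fun i _ => hLh i, ← sum_div, sum_sub_distrib, sum_add_distrib, hsum1, hsum2,
      ← mul_sum]
    ring
  rw [htot]
  have hb : ∑ i ∈ range m, h (i : ℝ) ≤ m * B.D := by
    refine (sum_le_card_nsmul _ _ B.D fun i _ => hhD _).trans ?_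
    simp
  have hcs : 2 * (1 - cos Δ) / sin Δ ≤ π / 2 * Δ := by
    rw [div_le_iff₀ hs]
    have h1 := one_sub_sq_div_two_le_cos (x := Δ)
    have h2 := mul_le_sin hΔ.le hΔ2.le
    have h3 : π / 2 * Δ * (2 / π * Δ) = Δ ^ 2 := by field_simp
    have h4 : π / 2 * Δ * (2 / π * Δ) ≤ π / 2 * Δ * sin Δ := by gcongr
    nlinarith
  have hcs0 : 0 ≤ 2 * (1 - cos Δ) / sin Δ := by
    apply div_nonneg _ hs.le
    have := cos_le_one Δ
    linarith
  calc 2 * (1 - cos Δ) / sin Δ * ∑ i ∈ range m, h (i : ℝ) ≤ 2 * (1 - cos Δ) / sin Δ * (m * B.D) := by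
        gcongr
    _ ≤ π / 2 * Δ * (m * B.D) := by gcongr
    _ = π / 2 * (m * Δ) * B.D := by ring
    _ = π ^ 2 * B.D := by rw [hmΔ]; ring

open Polynomial in
/-- the boundary of a convex body is approximated by polynomial curves -/
theorem approx_body (N : ℕ) (hN : 1 ≤ N) (hD1 : B.D ≤ 1) (ε : ℝ) (hε : 0 < ε) :
    ∃ P Q : ℝ[X], P.natDegree ≤ 2 * (N - 1) ∧ Q.natDegree ≤ 2 * (N - 1) ∧
      (∀ τ ∈ Set.Icc (0 : ℝ) 1, ∃ w ∈ frontier B.K,
        ‖((P.eval τ : ℝ) : ℂ) + ((Q.eval τ : ℝ) : ℂ) * Complex.I - w‖ ≤ 10400 / (N + 1) ^ 2 + ε) ∧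
      (∀ w ∈ frontier B.K, ∃ τ ∈ Set.Icc (0 : ℝ) 1,
        ‖((P.eval τ : ℝ) : ℂ) + ((Q.eval τ : ℝ) : ℂ) * Complex.I - w‖ ≤ 10400 / (N + 1) ^ 2 + ε) := by
  have hπ := pi_pos
  have hπ3 := pi_gt_d2
  have hπ4 := pi_lt_d2
  obtain ⟨m, hm⟩ := exists_nat_gt (max 5 (2 * π * 11 / ε))
  have hm5' : (5 : ℝ) < m := lt_of_le_of_lt (le_max_left _ _) hm
  have hm5 : 5 ≤ m := by
    have : (5 : ℕ) < m := by exact_mod_cast hm5'
    omega
  have hm0 : (0 : ℝ) < m := by linarith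
  have hmε : 2 * π / m * 11 ≤ ε := by
    have h1 : 2 * π * 11 / ε < m := lt_of_le_of_lt (le_max_right _ _) hm
    rw [div_lt_iff₀ hε] at h1
    rw [div_mul_eq_mul_div, div_le_iff₀ hm0]
    linarith
  have hnear := B.near_chain m hm5
  have htot := B.total_length m hm5
  set Δ := 2 * π / m with hΔdef
  have hΔ : 0 < Δ := by positivity
  have hmΔ : m * Δ = 2 * π := by rw [hΔdef]; field_simp
  have hΔ2 : Δ < π / 2 := by
    rw [hΔdef, div_lt_iff₀ hm0]
    nlinarith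
  have hs : 0 < sin Δ := sin_pos_of_pos_of_lt_pi hΔ (by linarith)
  have hc : 0 ≤ cos Δ := cos_nonneg_of_mem_Icc ⟨by linarith, hΔ2.le⟩
  obtain ⟨z0, hz0⟩ := B.nonempty
  have hD0 : 0 ≤ B.D := (norm_nonneg _).trans (B.hD z0 hz0 z0 hz0)
  set A := ∑ i ∈ range m, B.L Δ (i * Δ) with hA
  have hL : ∀ i : ℕ, 0 ≤ B.L Δ (i * Δ) := fun i => B.L_nonneg Δ _ hs
  have hA0 : 0 ≤ A := sum_nonneg fun i _ => hL i
  have hA1 : A ≤ 9.93 := by
    have : π ^ 2 * B.D ≤ 9.93 := by nlinarith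
    linarith
  obtain ⟨P, Q, hP, hQ, h1, h2⟩ := chain_approx N hN m (fun i => B.L Δ (i * Δ)) hL Δ hΔ (by omega)
    (fr 0 (B.H 0) (B.ym Δ 0)) A rfl
  -- numerical bound
  have herr : (2 * ((A + m * Δ) / (π - 2)) ^ 2 + A) * (π ^ 4 / 4 / ((N : ℝ) + 1) ^ 2) + Δ * A +
      B.D * Δ ≤ 10400 / ((N : ℝ) + 1) ^ 2 + ε := by
    have e1 : (A + m * Δ) / (π - 2) ≤ 14.27 := by
      rw [div_le_iff₀ (by linarith), hmΔ]
      nlinarith
    have e0 : 0 ≤ (A + m * Δ) / (π - 2) := by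
      apply div_nonneg _ (by linarith)
      rw [hmΔ]; linarith
    have e2 : 2 * ((A + m * Δ) / (π - 2)) ^ 2 + A ≤ 417.3 := by nlinarith
    have e3 : π ^ 4 / 4 ≤ 24.7 := by
      have e4 : π ^ 2 ≤ 9.9225 := by nlinarith
      have e5 : π ^ 4 = (π ^ 2) ^ 2 := by ring
      rw [e5]
      nlinarith [sq_nonneg π]
    have e6 : (2 * ((A + m * Δ) / (π - 2)) ^ 2 + A) * (π ^ 4 / 4) ≤ 10400 := by
      calc (2 * ((A + m * Δ) / (π - 2)) ^ 2 + A) * (π ^ 4 / 4) ≤ 417.3 * 24.7 := by gcongr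
        _ ≤ 10400 := by norm_num
    have e7 : (2 * ((A + m * Δ) / (π - 2)) ^ 2 + A) * (π ^ 4 / 4 / ((N : ℝ) + 1) ^ 2) ≤
        10400 / ((N : ℝ) + 1) ^ 2 := by
      rw [← mul_div_assoc]
      gcongr
    have e8 : Δ * A + B.D * Δ ≤ ε := by
      calc _ ≤ Δ * 9.93 + 1 * Δ := by gcongr
        _ ≤ Δ * 11 := by nlinarith
        _ ≤ ε := hmε
    linarith
  refine ⟨P, Q, hP, hQ, ?_, ?_⟩
  · intro τ hτ
    obtain ⟨x, hx, hb⟩ := h1 τ hτ
    -- the side of `x`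
    obtain ⟨j, hj, hx0, hx1⟩ : ∃ j : ℕ, j < m ∧ (j : ℝ) ≤ x ∧ x ≤ j + 1 := by
      rcases eq_or_lt_of_le hx.2 with h | h
      · refine ⟨m - 1, by omega, ?_, ?_⟩
        · rw [Nat.cast_sub (by omega)]; push_cast; linarith
        · rw [Nat.cast_sub (by omega)]; push_cast; linarith
      · refine ⟨⌊x⌋₊, ?_, Nat.floor_le hx.1, (Nat.lt_floor_add_one x).le⟩
        exact (Nat.floor_lt hx.1).2 h
    rw [B.chain_val Δ hs m j hj x hx0 hx1] at hb
    have hLj := hL j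
    have hLd : B.L Δ (j * Δ) = B.yp Δ (j * Δ) - B.ym Δ (j * Δ) := rfl
    obtain ⟨w, hw, hwd⟩ := B.chain_near Δ hΔ hs hc (j * Δ)
      (B.ym Δ (j * Δ) + (x - j) * B.L Δ (j * Δ)) (by nlinarith) (by nlinarith)
    refine ⟨w, hw, ?_⟩
    set q := fr (j * Δ) (B.H (j * Δ)) (B.ym Δ (j * Δ) + (x - j) * B.L Δ (j * Δ))
    calc _ = ‖(((P.eval τ : ℝ) : ℂ) + ((Q.eval τ : ℝ) : ℂ) * Complex.I - q) + (q - w)‖ := by
          congr 1; ring
      _ ≤ _ := norm_add_le _ _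
      _ ≤ _ := by linarith
  · intro w hw
    obtain ⟨x, hx, hxd⟩ := hnear w hw
    obtain ⟨τ, hτ, hb⟩ := h2 x hx
    refine ⟨τ, hτ, ?_⟩
    set q := XC m (fun i => B.L Δ (i * Δ)) Δ (fr 0 (B.H 0) (B.ym Δ 0)) x
    calc _ = ‖(((P.eval τ : ℝ) : ℂ) + ((Q.eval τ : ℝ) : ℂ) * Complex.I - q) + (q - w)‖ := by
          congr 1; ring
      _ ≤ _ := norm_add_le _ _
      _ ≤ _ := by linarith

/-- the diameter is at most the length of the boundary -/
lemma diam_le (x y : ℂ) (hx : x ∈ B.K) (hy : y ∈ B.K) :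
    ENNReal.ofReal ‖x - y‖ ≤ Measure.hausdorffMeasure 1 (frontier B.K) := by
  set ψ := Complex.arg (x - y) with hψ
  have hpr : pr ψ (x - y) = ‖x - y‖ := by
    have e1 : ‖x - y‖ * cos ψ = (x - y).re := Complex.norm_mul_cos_arg _
    have e2 : ‖x - y‖ * sin ψ = (x - y).im := Complex.norm_mul_sin_arg _
    rw [pr, ← e1, ← e2]
    have := sin_sq_add_cos_sq ψ
    linear_combination ‖x - y‖ * this
  have hsub : Set.Icc (pr ψ y) (pr ψ x) ⊆ pr ψ '' frontier B.K := by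
    intro c hc
    have hxy : pr ψ x - pr ψ y = ‖x - y‖ := by rw [← pr_sub, hpr]
    obtain ⟨μ, hμ0, hμ1, hμ⟩ : ∃ μ : ℝ, 0 ≤ μ ∧ μ ≤ 1 ∧ (1 - μ) * pr ψ y + μ * pr ψ x = c := by
      rcases eq_or_lt_of_le (hc.1.trans hc.2) with h | h
      · exact ⟨0, le_refl _, zero_le_one, by linarith [hc.1, hc.2]⟩
      · refine ⟨(c - pr ψ y) / (pr ψ x - pr ψ y), div_nonneg (by linarith [hc.1]) (by linarith), ?_, ?_⟩
        · rw [div_le_one (by linarith)]; linarith [hc.2]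
        · have : pr ψ x - pr ψ y ≠ 0 := by linarith
          field_simp
          ring
    obtain ⟨z0, hz0K, hz0c⟩ : ∃ z0 ∈ B.K, pr ψ z0 = c := by
      refine ⟨((1 - μ : ℝ) : ℂ) * y + ((μ : ℝ) : ℂ) * x, ?_, ?_⟩
      · have := B.conv hy hx (a := 1 - μ) (b := μ) (by linarith) hμ0 (by ring)
        simpa [Complex.real_smul] using this
      · rw [pr_add, pr_smul, pr_smul, hμ]
    -- a far away point on the orthogonal line
    obtain ⟨b, hb⟩ : ∃ b : ℂ, b = z0 + ((B.D + 1 : ℝ) : ℂ) * fr ψ 0 1 := ⟨_, rfl⟩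
    have hbK : b ∉ interior B.K := by
      intro h
      have h1 := B.hD b (interior_subset h) z0 hz0K
      rw [hb, add_sub_cancel_left, norm_mul, Complex.norm_real, Real.norm_eq_abs] at h1
      have h4 := pr_sq ψ (fr ψ 0 1)
      rw [pr_fr, pr_fr'] at h4
      have h5 : ‖fr ψ 0 1‖ = 1 := by
        have : ‖fr ψ 0 1‖ ^ 2 = 1 := by rw [← h4]; norm_num
        exact (sq_eq_sq₀ (norm_nonneg _) zero_le_one).1 (by rw [this]; norm_num)
      rw [h5, mul_one] at h1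
      have := le_abs_self (B.D + 1)
      linarith
    obtain ⟨w, hw1, hw2⟩ := seg_frontier B.K B.comp.isClosed z0 b hz0K hbK
    refine ⟨w, hw2, ?_⟩
    rw [segment_eq_image] at hw1
    obtain ⟨θ, _, rfl⟩ := hw1
    simp only [Complex.real_smul]
    rw [pr_add, pr_smul, pr_smul, hb, pr_add, pr_smul, pr_fr, hz0c]
    ring
  have hlip : LipschitzWith 1 (pr ψ) := by
    apply LipschitzWith.of_dist_le_mul
    intro a b
    rw [Real.dist_eq, ← pr_sub, dist_eq_norm]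
    simpa using pr_abs ψ (a - b)
  have hm := (hlip.lipschitzOnWith (s := frontier B.K)).hausdorffMeasure_image_le (d := 1) zero_le_one
  simp only [ENNReal.coe_one, one_mul, ENNReal.one_rpow] at hm
  calc ENNReal.ofReal ‖x - y‖ = volume (Set.Icc (pr ψ y) (pr ψ x)) := by
        rw [Real.volume_Icc, ← pr_sub, hpr]
    _ ≤ volume (pr ψ '' frontier B.K) := measure_mono hsub
    _ = Measure.hausdorffMeasure 1 (pr ψ '' frontier B.K) := by rw [hausdorffMeasure_real]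
    _ ≤ _ := hm

end Body

end Pool.Agent.N278.PC
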